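import Mathlib
import Pool.Agent.H51.Car.Avg

/-!
# Marginals of random tuples, Cauchy-Schwarz in one coordinate, labelled frequencies
-/

open Finset Filter Topology

namespace H51.Car

section marg

/-- The marginal on an injective family of coordinates. -/
theorem avg_comp_inj {ι κ V : Type*} [Fintype ι] [Fintype κ] [DecidableEq ι] [DecidableEq κ]
    [Fintype V] [Nonempty V] (e : ι → κ) (he : Function.Injective e) (F : (ι → V) → ℝ) :
    avg (fun Y : κ → V => F (fun i => Y (e i))) = avg F := by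
  classical
  let p : κ → Prop := fun x => x ∈ Set.range e
  let E := Equiv.piEquivPiSubtypeProd p (fun _ => V)
  let G : ({x // p x} → V) × ({x // ¬ p x} → V) → ℝ :=
    fun ab => F (fun i => ab.1 ⟨e i, Set.mem_range_self i⟩)
  have h1 : avg (fun Y : κ → V => F (fun i => Y (e i))) = avg G := by
    rw [← avg_equiv E G]
    rfl
  rw [h1, avg_prod]
  have h2 : ∀ a : {x // p x} → V, avg (fun b : {x // ¬ p x} → V => G (a, b)) =
      F (fun i => a ⟨e i, Set.mem_range_self i⟩) := by
    intro a
    show avg (fun _ : {x // ¬ p x} → V => F (fun i => a ⟨e i, Set.mem_range_self i⟩)) = _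
    exact avg_const _
  simp only [h2]
  let e' : ι ≃ {x // p x} := Equiv.ofInjective e he
  let E2 : (ι → V) ≃ ({x // p x} → V) := Equiv.arrowCongr e' (Equiv.refl V)
  rw [← avg_equiv E2]
  congr 1
  funext a
  congr 1
  funext i
  show a (e'.symm ⟨e i, Set.mem_range_self i⟩) = a i
  have : e'.symm ⟨e i, Set.mem_range_self i⟩ = i := by
    rw [Equiv.symm_apply_eq]
    rfl
  rw [this]

/-- Tuples of pairs are pairs of tuples. -/
theorem avg_arrow_prod {ι V W : Type*} [Fintype ι] [DecidableEq ι] [Fintype V] [Fintype W]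
    (F : (ι → V) → (ι → W) → ℝ) :
    avg (fun Y : ι → V × W => F (fun i => (Y i).1) (fun i => (Y i).2)) =
      avg (fun Z : ι → V => avg (fun l : ι → W => F Z l)) := by
  have h := avg_equiv (Equiv.arrowProdEquivProdArrow ι (fun _ => V) (fun _ => W))
    (fun p : (ι → V) × (ι → W) => F p.1 p.2)
  rw [avg_prod] at h
  rw [← h]
  rfl

theorem avg_sum_arrow {ι V : Type*} [Fintype ι] [DecidableEq ι] [Fintype V]
    (F : (ι ⊕ Unit → V) → ℝ) :
    avg F = avg (fun Z : ι → V => avg (fun v : V => F (Sum.elim Z (fun _ => v)))) := by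
  let E : (ι → V) × V ≃ (ι ⊕ Unit → V) :=
    ((Equiv.refl _).prodCongr (Equiv.funUnique Unit V).symm).trans
      (Equiv.sumArrowEquivProdArrow ι Unit V).symm
  rw [← avg_equiv E F, avg_prod]
  congr 1

theorem Pr_eq_coord {κ V : Type*} [Fintype κ] [DecidableEq κ] [Fintype V] [Nonempty V]
    {i j : κ} (hij : i ≠ j) :
    Pr (fun Y : κ → V => Y i = Y j) = 1 / Fintype.card V := by
  classical
  unfold Pr
  rw [← avg_update i]
  have : ∀ Y : κ → V, avg (fun v : V => ind (Function.update Y i v i = Function.update Y i v j)) =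
      1 / Fintype.card V := by
    intro Y
    simp only [Function.update_self, Function.update_of_ne (Ne.symm hij)]
    unfold avg
    congr 1
    rw [Finset.sum_eq_single (Y j)]
    · exact ind_pos_iff rfl
    · intro b _ hb
      exact ind_neg hb
    · intro h; exact absurd (mem_univ _) h
  simp only [this]
  exact avg_const _

/-- Random tuples are injective up to `O(1/n)`. -/
theorem Pr_not_injective {κ V : Type*} [Fintype κ] [DecidableEq κ] [Fintype V] [Nonempty V] :
    Pr (fun Y : κ → V => ¬ Function.Injective Y) ≤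
      (Fintype.card κ : ℝ) ^ 2 / Fintype.card V := by
  classical
  have h1 : Pr (fun Y : κ → V => ¬ Function.Injective Y) ≤
      Pr (fun Y : κ → V => ∃ p ∈ (univ : Finset (κ × κ)).filter (fun p => p.1 ≠ p.2),
        Y p.1 = Y p.2) := by
    apply Pr_mono
    intro Y hY
    simp only [Function.Injective, not_forall] at hY
    obtain ⟨a, b, hab, hne⟩ := hY
    exact ⟨(a, b), by simpa using hne, hab⟩
  refine h1.trans ((Pr_exists_le _ _).trans ?_)
  have h2 : ∑ p ∈ (univ : Finset (κ × κ)).filter (fun p => p.1 ≠ p.2),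
      Pr (fun Y : κ → V => Y p.1 = Y p.2) =
      ∑ p ∈ (univ : Finset (κ × κ)).filter (fun p => p.1 ≠ p.2), (1 : ℝ) / Fintype.card V := by
    apply Finset.sum_congr rfl
    intro p hp
    exact Pr_eq_coord (Finset.mem_filter.mp hp).2
  rw [h2, Finset.sum_const, nsmul_eq_mul, mul_one_div]
  apply div_le_div_of_nonneg_right _ (Nat.cast_nonneg _)
  have h3 : ((univ : Finset (κ × κ)).filter (fun p => p.1 ≠ p.2)).card ≤ Fintype.card κ ^ 2 := by
    calc _ ≤ (univ : Finset (κ × κ)).card := Finset.card_filter_le _ _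
      _ = Fintype.card κ ^ 2 := by rw [Finset.card_univ, Fintype.card_prod, sq]
  exact_mod_cast h3

theorem avg_sq_le {α : Type*} [Fintype α] (f : α → ℝ) : (avg f) ^ 2 ≤ avg (fun a => f a ^ 2) := by
  rcases isEmpty_or_nonempty α with he | hne
  · unfold avg; simp
  · have h := avg_nonneg (f := fun a => (f a - avg f) ^ 2) (fun a => sq_nonneg _)
    have e : (fun a => (f a - avg f) ^ 2) =
        fun a => f a ^ 2 - 2 * avg f * f a + (avg f) ^ 2 := by
      funext a; ring
    rw [e, avg_add, avg_sub, avg_const_mul, avg_const] at h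
    linarith

/-- Independent resampling of the coordinate `u`: the swap. -/
theorem avg_swap {κ V : Type*} [Fintype κ] [DecidableEq κ] [Fintype V] (u : κ)
    (F : (κ → V) → V → ℝ) :
    avg (fun Z : κ → V => avg (fun v : V => F (Function.update Z u v) (Z u))) =
      avg (fun Z : κ → V => avg (fun v : V => F Z v)) := by
  let e : (κ → V) × V ≃ (κ → V) × V :=
    { toFun := fun p => (Function.update p.1 u p.2, p.1 u)
      invFun := fun p => (Function.update p.1 u p.2, p.1 u)
      left_inv := by rintro ⟨Y, v⟩; simp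
      right_inv := by rintro ⟨Y, v⟩; simp }
  have h := avg_equiv e (fun p : (κ → V) × V => F p.1 p.2)
  rw [avg_prod, avg_prod] at h
  exact h

end marg

/-- A labelled copy together with a twin of one of its vertices. -/
theorem twin_lower {k n : ℕ} (hn : 0 < n) (s : Fin n → Fin n → ℤ) (hs : IsT s)
    (B₀ : Fin k → Fin k → ℤ) (u : Fin k) :
    (lab s B₀) ^ 2 ≤ 2 * avg (fun Z : Fin k → Fin n => avg (fun v : Fin n =>
      ind ((∀ i j, s (Z i) (Z j) = B₀ i j) ∧
        (∀ i j, s (Function.update Z u v i) (Function.update Z u v j) = B₀ i j) ∧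
        s v (Z u) = 1))) + 1 / n := by
  have : Nonempty (Fin n) := ⟨⟨0, hn⟩⟩
  set E : (Fin k → Fin n) → Prop := fun Z => ∀ i j, s (Z i) (Z j) = B₀ i j with hE
  set W : (Fin k → Fin n) → ℝ := fun Z => avg (fun v => ind (E (Function.update Z u v))) with hW
  have hWu : ∀ Z v, W (Function.update Z u v) = W Z := by
    intro Z v
    simp only [hW, Function.update_idem]
  have h1 : avg W = lab s B₀ := avg_update u (fun Z => ind (E Z))
  have h2 : avg (fun Z => W Z ^ 2) = avg (fun Z => avg (fun v => ind (E Z) *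
      ind (E (Function.update Z u v)))) := by
    have h3 := avg_update u (fun Z => ind (E Z) * W Z)
    simp only [hWu] at h3
    have h4 : (fun Z => avg (fun v => ind (E (Function.update Z u v)) * W Z)) =
        fun Z => W Z ^ 2 := by
      funext Z
      rw [avg_mul_const, sq]
    rw [h4] at h3
    rw [h3]
    congr 1
    funext Z
    rw [← avg_const_mul]
  have h5 : (lab s B₀) ^ 2 ≤ avg (fun Z => avg (fun v => ind (E Z) *
      ind (E (Function.update Z u v)))) := by
    rw [← h2, ← h1]
    exact avg_sq_le W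
  -- split according to the sign
  set A : (Fin k → Fin n) → Fin n → ℝ := fun Z v => ind (E Z ∧ E (Function.update Z u v) ∧
    s v (Z u) = 1) with hA
  set A' : (Fin k → Fin n) → Fin n → ℝ := fun Z v => ind (E Z ∧ E (Function.update Z u v) ∧
    s v (Z u) = -1) with hA'
  have h6 : avg (fun Z => avg (fun v => A' Z v)) = avg (fun Z => avg (fun v => A Z v)) := by
    rw [← avg_swap u A]
    congr 1
    funext Z
    congr 1
    funext v
    simp only [hA, hA']
    apply ind_congr
    rw [Function.update_self, Function.update_idem, Function.update_eq_self, hs.skew v (Z u)]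
    constructor
    · rintro ⟨a, b, c⟩
      exact ⟨b, a, by omega⟩
    · rintro ⟨a, b, c⟩
      exact ⟨b, a, by omega⟩
  have h7 : ∀ Z v, ind (E Z) * ind (E (Function.update Z u v)) ≤
      (A Z v + A' Z v) + ind (v = Z u) := by
    intro Z v
    by_cases c1 : E Z
    · by_cases c2 : E (Function.update Z u v)
      · by_cases c3 : v = Z u
        · have a1 : ind (v = Z u) = 1 := ind_pos_iff c3
          have a2 : 0 ≤ A Z v := ind_nonneg _
          have a3 : 0 ≤ A' Z v := ind_nonneg _
          rw [ind_pos_iff c1, ind_pos_iff c2, a1]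
          linarith
        · have a1 : 0 ≤ ind (v = Z u) := ind_nonneg _
          rcases hs.pm v (Z u) c3 with h | h
          · have a2 : A Z v = 1 := ind_pos_iff ⟨c1, c2, h⟩
            have a3 : 0 ≤ A' Z v := ind_nonneg _
            rw [ind_pos_iff c1, ind_pos_iff c2, a2]
            linarith
          · have a2 : A' Z v = 1 := ind_pos_iff ⟨c1, c2, h⟩
            have a3 : 0 ≤ A Z v := ind_nonneg _
            rw [ind_pos_iff c1, ind_pos_iff c2, a2]
            linarith
      · have a1 : 0 ≤ ind (v = Z u) := ind_nonneg _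
        have a2 : 0 ≤ A Z v := ind_nonneg _
        have a3 : 0 ≤ A' Z v := ind_nonneg _
        rw [ind_neg c2]
        linarith
    · have a1 : 0 ≤ ind (v = Z u) := ind_nonneg _
      have a2 : 0 ≤ A Z v := ind_nonneg _
      have a3 : 0 ≤ A' Z v := ind_nonneg _
      rw [ind_neg c1]
      linarith
  have h8 : ∀ Z : Fin k → Fin n, avg (fun v : Fin n => ind (v = Z u)) = 1 / n := by
    intro Z
    unfold avg
    rw [Fintype.card_fin, Finset.sum_eq_single (Z u)]
    · rw [ind_pos_iff rfl]
    · intro b _ hb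
      exact ind_neg hb
    · intro h; exact absurd (mem_univ _) h
  calc (lab s B₀) ^ 2 ≤ avg (fun Z => avg (fun v => ind (E Z) *
      ind (E (Function.update Z u v)))) := h5
    _ ≤ avg (fun Z => avg (fun v => (A Z v + A' Z v) + ind (v = Z u))) :=
        avg_mono fun Z => avg_mono fun v => h7 Z v
    _ = avg (fun Z => avg (fun v => A Z v)) + avg (fun Z => avg (fun v => A' Z v)) + 1 / n := by
        have e : (fun Z => avg (fun v => (A Z v + A' Z v) + ind (v = Z u))) =
            fun Z => (avg (fun v => A Z v) + avg (fun v => A' Z v)) + 1 / (n : ℝ) := by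
          funext Z
          rw [avg_add, avg_add, h8]
        rw [e, avg_add, avg_add, avg_const]
    _ = 2 * avg (fun Z => avg (fun v => A Z v)) + 1 / n := by
        rw [h6]; ring

/-- The event: the first `k` vertices form the labelled tournament `B₀` with marks `l₀`, and the
vertex `inr false` is a twin of `u` which beats `u`. -/
def Fl {k n : ℕ} (s : Fin n → Fin n → ℤ) (B₀ : Fin k → Fin k → ℤ) (u : Fin k)
    (l₀ : Fin k → Fin 3) (Y : Fin (k + 2) ⊕ Bool → Fin n × Fin 3) : Prop :=
  Function.Injective (fun i => (Y i).1) ∧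
  (∀ i j : Fin k, s (Y (Sum.inl (Fin.castAdd 2 i))).1 (Y (Sum.inl (Fin.castAdd 2 j))).1 = B₀ i j) ∧
  (∀ i : Fin k, (Y (Sum.inl (Fin.castAdd 2 i))).2 = l₀ i) ∧
  (∀ i : Fin k, i ≠ u → s (Y (Sum.inl (Fin.castAdd 2 i))).1 (Y (Sum.inr false)).1 = B₀ i u) ∧
  s (Y (Sum.inr false)).1 (Y (Sum.inl (Fin.castAdd 2 u))).1 = 1

theorem Fl_lower (k : ℕ) : ∃ C : ℝ, ∀ (n : ℕ) (s : Fin n → Fin n → ℤ), 0 < n → IsT s →
    ∀ (B₀ : Fin k → Fin k → ℤ) (u : Fin k) (l₀ : Fin k → Fin 3), IsT B₀ →
      (lab s B₀) ^ 2 ≤ 2 * 3 ^ k * Pr (Fl s B₀ u l₀) + C / n := by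
  refine ⟨2 * 3 ^ k * (Fintype.card (Fin (k + 2) ⊕ Bool) : ℝ) ^ 2 + 1, ?_⟩
  intro n s hn hs B₀ u l₀ hB₀
  have : Nonempty (Fin n) := ⟨⟨0, hn⟩⟩
  -- the embedding of coordinates
  let e : Fin k ⊕ Unit → Fin (k + 2) ⊕ Bool :=
    Sum.map (Fin.castAdd 2) (fun _ => false)
  have he : Function.Injective e := by
    intro a b hab
    rcases a with a | a <;> rcases b with b | b
    · simp only [e, Sum.map_inl, Sum.inl.injEq] at hab
      rw [Fin.castAdd_injective k 2 hab]
    · simp [e] at hab
    · simp [e] at hab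
    · rfl
  -- the event without injectivity
  let E1 : (Fin k ⊕ Unit → Fin n) → Prop := fun Z =>
    (∀ i j : Fin k, s (Z (Sum.inl i)) (Z (Sum.inl j)) = B₀ i j) ∧
    (∀ i : Fin k, i ≠ u → s (Z (Sum.inl i)) (Z (Sum.inr ())) = B₀ i u) ∧
    s (Z (Sum.inr ())) (Z (Sum.inl u)) = 1
  let E2 : (Fin k ⊕ Unit → Fin 3) → Prop := fun l => ∀ i : Fin k, l (Sum.inl i) = l₀ i
  have h1 : avg (fun Y : Fin (k + 2) ⊕ Bool → Fin n × Fin 3 =>
      ind (E1 (fun i => (Y (e i)).1)) * ind (E2 (fun i => (Y (e i)).2))) =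
      avg (fun Z : Fin k ⊕ Unit → Fin n => ind (E1 Z)) * (1 / 3 ^ k) := by
    rw [avg_comp_inj e he (fun y : Fin k ⊕ Unit → Fin n × Fin 3 =>
      ind (E1 (fun i => (y i).1)) * ind (E2 (fun i => (y i).2)))]
    rw [avg_arrow_prod (fun Z l => ind (E1 Z) * ind (E2 l))]
    rw [← avg_mul_const]
    congr 1
    funext Z
    rw [avg_const_mul]
    congr 1
    rw [avg_comp_inj (Sum.inl : Fin k → Fin k ⊕ Unit) Sum.inl_injective
      (fun l : Fin k → Fin 3 => ind (∀ i : Fin k, l i = l₀ i))]
    unfold avg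
    rw [Finset.sum_eq_single l₀]
    · rw [ind_pos_iff (fun _ => rfl)]
      simp
    · intro b _ hb
      apply ind_neg
      intro h
      exact hb (funext h)
    · intro h; exact absurd (mem_univ _) h
  have h2 : avg (fun Z : Fin k ⊕ Unit → Fin n => ind (E1 Z)) =
      avg (fun Z : Fin k → Fin n => avg (fun v : Fin n =>
      ind ((∀ i j, s (Z i) (Z j) = B₀ i j) ∧
        (∀ i j, s (Function.update Z u v i) (Function.update Z u v j) = B₀ i j) ∧
        s v (Z u) = 1))) := by
    rw [avg_sum_arrow]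
    congr 1
    funext Z
    congr 1
    funext v
    apply ind_congr
    simp only [E1, Sum.elim_inl, Sum.elim_inr]
    constructor
    · rintro ⟨a, b, c⟩
      refine ⟨a, ?_, c⟩
      intro i j
      by_cases hi : i = u
      · by_cases hj : j = u
        · rw [hi, hj, Function.update_self]
          have h0 := hs.skew v v
          have h1 := hB₀.skew u u
          omega
        · rw [hi, Function.update_self, Function.update_of_ne hj, hs.skew (Z j) v, b j hj,
            hB₀.skew j u]
      · by_cases hj : j = u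
        · rw [hj, Function.update_self, Function.update_of_ne hi]
          exact b i hi
        · rw [Function.update_of_ne hi, Function.update_of_ne hj]
          exact a i j
    · rintro ⟨a, b, c⟩
      refine ⟨a, ?_, c⟩
      intro i hi
      have := b i u
      rw [Function.update_self, Function.update_of_ne hi] at this
      exact this
  have h3 := twin_lower hn s hs B₀ u
  rw [← h2] at h3
  have h4 : avg (fun Y : Fin (k + 2) ⊕ Bool → Fin n × Fin 3 =>
      ind (E1 (fun i => (Y (e i)).1)) * ind (E2 (fun i => (Y (e i)).2))) ≤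
      Pr (Fl s B₀ u l₀) + (Fintype.card (Fin (k + 2) ⊕ Bool) : ℝ) ^ 2 / n := by
    have h5 : Pr (fun Y : Fin (k + 2) ⊕ Bool → Fin n × Fin 3 =>
        ¬ Function.Injective (fun i => (Y i).1)) ≤
        (Fintype.card (Fin (k + 2) ⊕ Bool) : ℝ) ^ 2 / n := by
      have h6 := Pr_not_injective (κ := Fin (k + 2) ⊕ Bool) (V := Fin n)
      rw [Fintype.card_fin] at h6
      refine le_trans (le_of_eq ?_) h6
      unfold Pr
      rw [avg_arrow_prod (fun (Z : Fin (k + 2) ⊕ Bool → Fin n)
        (_ : Fin (k + 2) ⊕ Bool → Fin 3) => ind (¬ Function.Injective Z))]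
      congr 1
      funext Z
      exact avg_const _
    refine le_trans ?_ (add_le_add (le_refl _) h5)
    refine le_trans ?_ (Pr_or_le _ _)
    refine avg_mono fun Y => ?_
    rw [← ind_and]
    apply ind_mono
    rintro ⟨⟨a, b, c⟩, d⟩
    by_cases hinj : Function.Injective (fun i => (Y i).1)
    · left
      exact ⟨hinj, a, d, b, c⟩
    · right
      exact hinj
  rw [h1] at h4
  have h3k : (0 : ℝ) < 3 ^ k := by positivity
  have h7 : avg (fun Z : Fin k ⊕ Unit → Fin n => ind (E1 Z)) ≤
      3 ^ k * (Pr (Fl s B₀ u l₀) + (Fintype.card (Fin (k + 2) ⊕ Bool) : ℝ) ^ 2 / n) := by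
    have := mul_le_mul_of_nonneg_left h4 h3k.le
    have e3 : (3 : ℝ) ^ k * (avg (fun Z : Fin k ⊕ Unit → Fin n => ind (E1 Z)) * (1 / 3 ^ k)) =
        avg (fun Z : Fin k ⊕ Unit → Fin n => ind (E1 Z)) := by
      field_simp
    rw [e3] at this
    exact this
  have e4 : (2 * 3 ^ k * (Fintype.card (Fin (k + 2) ⊕ Bool) : ℝ) ^ 2 + 1) / (n : ℝ) =
      2 * 3 ^ k * ((Fintype.card (Fin (k + 2) ⊕ Bool) : ℝ) ^ 2 / n) + 1 / n := by
    ring
  rw [e4]
  nlinarith [h3, h7]

/-- All tournament matrices which are positive but no carousels. -/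
noncomputable def badB (k : ℕ) : Finset (Fin k → Fin k → ℤ) := by
  classical
  exact (Fintype.piFinset (fun _ : Fin k => Fintype.piFinset (fun _ : Fin k =>
    ({-1, 0, 1} : Finset ℤ)))).filter
    (fun B => IsT B ∧ Pos (fun i j => (B i j : ℝ)) univ ∧ ¬ IsAlt B)

theorem mem_badB {k : ℕ} {B : Fin k → Fin k → ℤ} (h : B ∈ badB k) :
    IsT B ∧ Pos (fun i j => (B i j : ℝ)) univ ∧ ¬ IsAlt B := by
  classical
  unfold badB at h
  exact (Finset.mem_filter.mp h).2

theorem IsT.mem3 {V : Type*} {s : V → V → ℤ} (h : IsT s) (i j : V) :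
    s i j ∈ ({-1, 0, 1} : Finset ℤ) := by
  by_cases hij : i = j
  · subst hij
    have := h.skew i i
    have h0 : s i i = 0 := by omega
    rw [h0]; decide
  · rcases h.pm i j hij with h1 | h1 <;> rw [h1] <;> decide

theorem IsT.comp {V W : Type*} {s : V → V → ℤ} (h : IsT s) (Y : W → V)
    (hY : Function.Injective Y) : IsT (fun a b => s (Y a) (Y b)) :=
  ⟨fun _ _ => h.skew _ _, fun _ _ hij => h.pm _ _ (fun e => hij (hY e))⟩

theorem posNotAlt_le (k : ℕ) {n : ℕ} (hn : 0 < n) (s : Fin n → Fin n → ℤ) (hs : IsT s) :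
    posNotAlt s k ≤ ∑ B ∈ badB k, lab s B + (k : ℝ) ^ 2 / n := by
  classical
  have : Nonempty (Fin n) := ⟨⟨0, hn⟩⟩
  have h6 := Pr_not_injective (κ := Fin k) (V := Fin n)
  rw [Fintype.card_fin, Fintype.card_fin] at h6
  have h1 : posNotAlt s k ≤ Pr (fun Y : Fin k → Fin n =>
      (∃ B ∈ badB k, ∀ i j, s (Y i) (Y j) = B i j) ∨ ¬ Function.Injective Y) := by
    apply Pr_mono
    rintro Y ⟨h1, h2⟩
    by_cases hinj : Function.Injective Y
    · left
      refine ⟨fun i j => s (Y i) (Y j), ?_, fun _ _ => rfl⟩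
      unfold badB
      rw [Finset.mem_filter]
      have hT := hs.comp Y hinj
      refine ⟨?_, hT, h1, h2⟩
      rw [Fintype.mem_piFinset]
      intro i
      rw [Fintype.mem_piFinset]
      intro j
      exact hT.mem3 i j
    · right; exact hinj
  calc posNotAlt s k ≤ _ := h1
    _ ≤ _ := Pr_or_le _ _
    _ ≤ ∑ B ∈ badB k, lab s B + (k : ℝ) ^ 2 / n := add_le_add (Pr_exists_le _ _) h6

theorem posNotAlt_tendsto (k : ℕ) (n : ℕ → ℕ) (hn : Tendsto n atTop atTop)
    (s : ∀ m, Fin (n m) → Fin (n m) → ℤ) (hs : ∀ m, IsT (s m))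
    (h : ∀ B₀ : Fin k → Fin k → ℤ, IsT B₀ → Pos (fun i j => (B₀ i j : ℝ)) univ → ¬ IsAlt B₀ →
      Tendsto (fun m => lab (s m) B₀) atTop (𝓝 0)) :
    Tendsto (fun m => posNotAlt (s m) k) atTop (𝓝 0) := by
  have h1 : Tendsto (fun m => ∑ B ∈ badB k, lab (s m) B + (k : ℝ) ^ 2 / (n m : ℝ)) atTop
      (𝓝 (∑ B ∈ badB k, (0 : ℝ) + 0)) := by
    apply Tendsto.add
    · apply tendsto_finsetSum
      intro B hB
      obtain ⟨a, b, c⟩ := mem_badB hB
      exact h B a b c
    · exact (tendsto_const_div_atTop_nhds_zero_nat _).comp hn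
  rw [Finset.sum_const_zero, add_zero] at h1
  refine tendsto_of_tendsto_of_tendsto_of_le_of_le' tendsto_const_nhds h1 ?_ ?_
  · exact Filter.Eventually.of_forall fun m => Pr_nonneg _
  · filter_upwards [hn.eventually (eventually_gt_atTop 0)] with m hm
    exact posNotAlt_le k hm (s m) (hs m)

end H51.Car
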