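import Mathlib
import Pool.Agent.H51.Car.Defs
import Pool.Agent.H51.Car.Core

/-!
# Carousel facts; densities and probabilities of tuples
-/

open Finset Filter Topology

namespace H51.Car

/-- sign matrix of a tournament -/
noncomputable def Tour.sgn {n : ℕ} (U : Tour n) (i j : Fin n) : ℤ := by
  classical
  exact if U.beats i j then 1 else if U.beats j i then -1 else 0

theorem Tour.isT {n : ℕ} (U : Tour n) : IsT U.sgn := by
  constructor
  · intro i j
    by_cases hij : i = j
    · subst hij
      simp [Tour.sgn, U.irrefl]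
    · have h := U.total i j hij
      by_cases h1 : U.beats i j
      · have h2 : ¬ U.beats j i := h.mp h1
        simp [Tour.sgn, h1, h2]
      · have h2 : U.beats j i := by
          by_contra hc
          exact h1 (h.mpr hc)
        simp [Tour.sgn, h1, h2]
  · intro i j hij
    have h := U.total i j hij
    by_cases h1 : U.beats i j
    · left; simp [Tour.sgn, h1]
    · have h2 : U.beats j i := by
        by_contra hc
        exact h1 (h.mpr hc)
      right; simp [Tour.sgn, h1, h2]

theorem Tour.sgn_self {n : ℕ} (U : Tour n) (i : Fin n) : U.sgn i i = 0 := by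
  simp [Tour.sgn, U.irrefl]

theorem Tour.beats_iff {n : ℕ} (U : Tour n) (i j : Fin n) : U.beats i j ↔ U.sgn i j = 1 := by
  by_cases h1 : U.beats i j
  · simp [Tour.sgn, h1]
  · by_cases h2 : U.beats j i <;> simp [Tour.sgn, h1, h2]

theorem carousel_beats (n : ℕ) (x y : Fin (2 * n + 1)) : (carousel n).beats x y ↔
    ((x.val < y.val ∧ y.val ≤ x.val + n) ∨ (y.val < x.val ∧ y.val + (2 * n + 1) ≤ x.val + n)) := by
  have ha := x.isLt
  have hb := y.isLt
  show (∃ i, 1 ≤ i ∧ i ≤ n ∧ (x.val + i) % (2 * n + 1) = y.val) ↔ _
  constructor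
  · rintro ⟨i, h1, h2, h3⟩
    by_cases h : x.val + i < 2 * n + 1
    · rw [Nat.mod_eq_of_lt h] at h3
      left; omega
    · have : (x.val + i) % (2 * n + 1) = x.val + i - (2 * n + 1) := by
        rw [Nat.mod_eq_sub_mod (by omega), Nat.mod_eq_of_lt (by omega)]
      right; omega
  · rintro (⟨h1, h2⟩ | ⟨h1, h2⟩)
    · exact ⟨y.val - x.val, by omega, by omega, by
        rw [Nat.add_sub_cancel' (by omega)]; exact Nat.mod_eq_of_lt hb⟩
    · refine ⟨y.val + (2 * n + 1) - x.val, by omega, by omega, ?_⟩
      rw [Nat.add_sub_cancel' (by omega), Nat.add_mod_right]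
      exact Nat.mod_eq_of_lt hb

theorem carousel_sgn_one {n : ℕ} {x y : Fin (2 * n + 1)}
    (h : (x.val < y.val ∧ y.val ≤ x.val + n) ∨ (y.val < x.val ∧ y.val + (2 * n + 1) ≤ x.val + n)) :
    (carousel n).sgn x y = 1 :=
  ((carousel n).beats_iff x y).mp ((carousel_beats n x y).mpr h)

theorem carousel_sgn_neg {n : ℕ} {x y : Fin (2 * n + 1)}
    (h : (y.val < x.val ∧ x.val ≤ y.val + n) ∨ (x.val < y.val ∧ x.val + (2 * n + 1) ≤ y.val + n)) :
    (carousel n).sgn x y = -1 := by
  have h1 := carousel_sgn_one h
  have h2 := (carousel n).isT.skew x y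
  omega

/-- The enumeration of the carousel in alternating order. -/
def altPerm (n : ℕ) : Equiv.Perm (Fin (2 * n + 1)) where
  toFun a := ⟨if a.val % 2 = 0 then a.val / 2 else a.val / 2 + n + 1, by
    have := a.isLt
    split_ifs <;> omega⟩
  invFun x := ⟨if x.val ≤ n then 2 * x.val else 2 * (x.val - n - 1) + 1, by
    have := x.isLt
    split_ifs <;> omega⟩
  left_inv a := by
    have := a.isLt
    apply Fin.ext
    dsimp only
    split_ifs <;> omega
  right_inv x := by
    have := x.isLt
    apply Fin.ext
    dsimp only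
    split_ifs <;> omega

theorem isAlt_carousel (n : ℕ) : IsAlt (carousel n).sgn := by
  refine ⟨altPerm n, ?_⟩
  have key : ∀ a b : Fin (2 * n + 1), a < b →
      (carousel n).sgn (altPerm n a) (altPerm n b) = (-1) ^ (a.val + b.val) := by
    intro a b hab
    have hab' : a.val < b.val := hab
    have ha := a.isLt
    have hb := b.isLt
    have hva : (altPerm n a).val = if a.val % 2 = 0 then a.val / 2 else a.val / 2 + n + 1 := rfl
    have hvb : (altPerm n b).val = if b.val % 2 = 0 then b.val / 2 else b.val / 2 + n + 1 := rfl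
    rcases Nat.even_or_odd (a.val + b.val) with he | ho
    · rw [he.neg_one_pow]
      apply carousel_sgn_one
      rw [hva, hvb]
      rw [Nat.even_iff] at he
      left
      split_ifs <;> omega
    · rw [ho.neg_one_pow]
      apply carousel_sgn_neg
      rw [hva, hvb]
      rw [Nat.odd_iff] at ho
      by_cases h0 : a.val % 2 = 0
      · have h1 : ¬ (b.val % 2 = 0) := by omega
        rw [if_pos h0, if_neg h1]
        right; omega
      · have h1 : b.val % 2 = 0 := by omega
        rw [if_neg h0, if_pos h1]
        left; omega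
  intro a b
  unfold altS
  by_cases h1 : a < b
  · rw [if_pos h1]; exact key a b h1
  · rw [if_neg h1]
    by_cases h2 : b < a
    · rw [if_pos h2, (carousel n).isT.skew, key b a h2, Nat.add_comm]
    · rw [if_neg h2]
      have : a = b := le_antisymm (not_lt.mp h2) (not_lt.mp h1)
      subst this
      exact (carousel n).sgn_self _

/-- Reflection at the vertex `x`. -/
def refl (n : ℕ) (x : Fin (2 * n + 1)) (y : Fin (2 * n + 1)) : Fin (2 * n + 1) :=
  ⟨if 2 * x.val < y.val then 2 * x.val + (2 * n + 1) - y.val else
    if y.val + (2 * n + 1) ≤ 2 * x.val then 2 * x.val - y.val - (2 * n + 1) else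
      2 * x.val - y.val, by
    have := x.isLt
    have := y.isLt
    split_ifs <;> omega⟩

theorem refl_refl (n : ℕ) (x y : Fin (2 * n + 1)) : refl n x (refl n x y) = y := by
  have := x.isLt
  have := y.isLt
  apply Fin.ext
  simp only [refl]
  split_ifs <;> omega

theorem sgn_refl (n : ℕ) (x y : Fin (2 * n + 1)) :
    (carousel n).sgn x (refl n x y) = - (carousel n).sgn x y := by
  have hx := x.isLt
  have hy := y.isLt
  have hv : (refl n x y).val = if 2 * x.val < y.val then 2 * x.val + (2 * n + 1) - y.val else
    if y.val + (2 * n + 1) ≤ 2 * x.val then 2 * x.val - y.val - (2 * n + 1) else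
      2 * x.val - y.val := rfl
  by_cases hxy : x = y
  · subst hxy
    have : refl n x x = x := by
      apply Fin.ext
      rw [hv]
      split_ifs <;> omega
    rw [this, (carousel n).sgn_self]
    rfl
  · have hne : x.val ≠ y.val := fun h => hxy (Fin.ext h)
    by_cases h1 : (x.val < y.val ∧ y.val ≤ x.val + n) ∨
        (y.val < x.val ∧ y.val + (2 * n + 1) ≤ x.val + n)
    · rw [carousel_sgn_one h1]
      apply carousel_sgn_neg
      rw [hv]
      split_ifs <;> omega
    · have h2 : (y.val < x.val ∧ x.val ≤ y.val + n) ∨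
        (x.val < y.val ∧ x.val + (2 * n + 1) ≤ y.val + n) := by omega
      rw [carousel_sgn_neg h2]
      have : (carousel n).sgn x (refl n x y) = 1 := by
        apply carousel_sgn_one
        rw [hv]
        split_ifs <;> omega
      rw [this]
      rfl

theorem sum_carousel (n : ℕ) (x : Fin (2 * n + 1)) : ∑ y, (carousel n).sgn x y = 0 := by
  have h : ∑ y, (carousel n).sgn x y = ∑ y, (carousel n).sgn x (refl n x y) :=
    (Equiv.sum_comp ⟨refl n x, refl n x, refl_refl n x, refl_refl n x⟩
      (fun y => (carousel n).sgn x y)).symm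
  simp only [sgn_refl, Finset.sum_neg_distrib] at h
  omega

theorem bal_carousel (n : ℕ) : bal (carousel n).sgn = 0 := by
  have h : ∀ x, avg (fun y => (((carousel n).sgn x y : ℤ) : ℝ)) = 0 := by
    intro x
    have := sum_carousel n x
    unfold avg
    rw [← Int.cast_sum, this]
    simp
  unfold bal
  simp only [h]
  simp [avg]

/-- Twice the position of `y` in the linear order obtained by switching at `x`. -/
def pos2 (n x y : ℕ) : ℕ :=
  if x < y then (if y ≤ x + n then 2 * (y - x) else 2 * (y - x) - (2 * n + 1))
  else (if y + (2 * n + 1) ≤ x + n then 2 * (y + (2 * n + 1) - x)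
    else 2 * (y + (2 * n + 1) - x) - (2 * n + 1))

theorem switch_lt (n : ℕ) (x i j : Fin (2 * n + 1)) (hi : i ≠ x) (hj : j ≠ x)
    (hij : i ≠ j) (h : pos2 n x i ≤ pos2 n x j) :
    (carousel n).sgn x i * (carousel n).sgn x j * (carousel n).sgn i j = 1 := by
  have hx := x.isLt
  have hil := i.isLt
  have hjl := j.isLt
  have h1 : i.val ≠ x.val := fun h => hi (Fin.ext h)
  have h2 : j.val ≠ x.val := fun h => hj (Fin.ext h)
  have h3 : i.val ≠ j.val := fun h => hij (Fin.ext h)
  by_cases c1 : (x.val < i.val ∧ i.val ≤ x.val + n) ∨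
        (i.val < x.val ∧ i.val + (2 * n + 1) ≤ x.val + n)
  · rw [carousel_sgn_one c1]
    by_cases c2 : (x.val < j.val ∧ j.val ≤ x.val + n) ∨
        (j.val < x.val ∧ j.val + (2 * n + 1) ≤ x.val + n)
    · rw [carousel_sgn_one c2]
      have : (carousel n).sgn i j = 1 := by
        apply carousel_sgn_one
        unfold pos2 at h
        split_ifs at h <;> omega
      rw [this]; rfl
    · have c2' : (j.val < x.val ∧ x.val ≤ j.val + n) ∨
        (x.val < j.val ∧ x.val + (2 * n + 1) ≤ j.val + n) := by omega
      rw [carousel_sgn_neg c2']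
      have : (carousel n).sgn i j = -1 := by
        apply carousel_sgn_neg
        unfold pos2 at h
        split_ifs at h <;> omega
      rw [this]; rfl
  · have c1' : (i.val < x.val ∧ x.val ≤ i.val + n) ∨
        (x.val < i.val ∧ x.val + (2 * n + 1) ≤ i.val + n) := by omega
    rw [carousel_sgn_neg c1']
    by_cases c2 : (x.val < j.val ∧ j.val ≤ x.val + n) ∨
        (j.val < x.val ∧ j.val + (2 * n + 1) ≤ x.val + n)
    · rw [carousel_sgn_one c2]
      have : (carousel n).sgn i j = -1 := by
        apply carousel_sgn_neg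
        unfold pos2 at h
        split_ifs at h <;> omega
      rw [this]; rfl
    · have c2' : (j.val < x.val ∧ x.val ≤ j.val + n) ∨
        (x.val < j.val ∧ x.val + (2 * n + 1) ≤ j.val + n) := by omega
      rw [carousel_sgn_neg c2']
      have : (carousel n).sgn i j = 1 := by
        apply carousel_sgn_one
        unfold pos2 at h
        split_ifs at h <;> omega
      rw [this]; rfl

theorem not_bad_carousel (n : ℕ) (x i j l : Fin (2 * n + 1)) :
    ¬ Bad (carousel n).sgn x i j l := by
  rintro ⟨h1, h2, h3⟩
  have hs := (carousel n).sgn_self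
  have nxi : i ≠ x := by
    rintro rfl; apply h3; rw [hs]; simp
  have nxj : j ≠ x := by
    rintro rfl; apply h3; rw [hs]; simp
  have nij : i ≠ j := by
    rintro rfl; apply h3; rw [hs]; simp
  rw [h1] at h3
  have nxl : l ≠ x := by
    rintro rfl; apply h3; rw [hs]; simp
  have njl : j ≠ l := by
    rintro rfl; apply h3; rw [hs]; simp
  rw [h2] at h3
  have nli : l ≠ i := by
    rintro rfl; apply h3; rw [hs]; simp
  have hsk := (carousel n).isT.skew
  -- antisymmetry of the switched form
  have key : ∀ a b, a ≠ x → b ≠ x → a ≠ b →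
      ((carousel n).sgn x a * (carousel n).sgn x b * (carousel n).sgn a b = 1 ↔
        pos2 n x a ≤ pos2 n x b) := by
    intro a b ha hb hab
    constructor
    · intro h
      by_contra hc
      have := switch_lt n x b a hb ha (Ne.symm hab) (by omega)
      rw [hsk a b] at this
      have e : (carousel n).sgn x b * (carousel n).sgn x a * -(carousel n).sgn a b
        = -((carousel n).sgn x a * (carousel n).sgn x b * (carousel n).sgn a b) := by ring
      rw [e, h] at this
      omega
    · exact switch_lt n x a b ha hb hab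
  have key2 : ∀ a b, a ≠ x → b ≠ x → a ≠ b →
      (pos2 n x a ≤ pos2 n x b) → ¬ (pos2 n x b ≤ pos2 n x a) := by
    intro a b ha hb hab h h'
    have e1 := switch_lt n x a b ha hb hab h
    have e2 := switch_lt n x b a hb ha (Ne.symm hab) h'
    rw [hsk a b] at e2
    have e : (carousel n).sgn x b * (carousel n).sgn x a * -(carousel n).sgn a b
        = -((carousel n).sgn x a * (carousel n).sgn x b * (carousel n).sgn a b) := by ring
    rw [e, e1] at e2
    omega
  by_cases c : pos2 n x i ≤ pos2 n x j
  · have e1 := (key i j nxi nxj nij).mpr c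
    rw [e1] at h1
    rw [← h1] at h2
    have c2 := (key j l nxj nxl njl).mp h1.symm
    have c3 := (key l i nxl nxi nli).mp h2.symm
    exact key2 i j nxi nxj nij c (le_trans c2 c3)
  · have c2 : ¬ pos2 n x j ≤ pos2 n x l := by
      intro h
      have := (key j l nxj nxl njl).mpr h
      rw [this] at h1
      exact c ((key i j nxi nxj nij).mp h1)
    have c3 : ¬ pos2 n x l ≤ pos2 n x i := by
      intro h
      have := (key l i nxl nxi nli).mpr h
      rw [this] at h2
      exact c2 ((key j l nxj nxl njl).mp h2)
    omega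

theorem badP_carousel (n : ℕ) : badP (carousel n).sgn = 0 := by
  unfold badP Pr avg ind
  simp [not_bad_carousel]

end H51.Car
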