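import Mathlib
import Pool.Agent.H51.Car.Defs
import Pool.Agent.H51.Car.Core
import Pool.Agent.H94.Car.P3a

/-!
# Densities of tournaments and probabilities of tuples
-/

open Finset Filter Topology

namespace H51.Car

/-- `Y` is an enumeration of a copy of the labelled tournament `B`. -/
def IsoTo {V : Type*} (s : V → V → ℤ) {k : ℕ} (B : Fin k → Fin k → ℤ) (Y : Fin k → V) : Prop :=
  ∃ σ : Equiv.Perm (Fin k), ∀ a b, s (Y (σ a)) (Y (σ b)) = B a b

/-- Probability that a random tuple enumerates a copy of `B`. -/
noncomputable def isoP {V : Type*} [Fintype V] (s : V → V → ℤ) {k : ℕ}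
    (B : Fin k → Fin k → ℤ) : ℝ := Pr (fun Y : Fin k → V => IsoTo s B Y)

theorem carP_eq_isoP {V : Type*} [Fintype V] (s : V → V → ℤ) (r : ℕ) :
    carP s r = isoP s (altS r) := rfl

/-- All relabellings of `B`. -/
noncomputable def orb {k : ℕ} (B : Fin k → Fin k → ℤ) : Finset (Fin k → Fin k → ℤ) := by
  classical
  exact (univ : Finset (Equiv.Perm (Fin k))).image (fun σ a b => B (σ a) (σ b))

theorem isoTo_iff {V : Type*} (s : V → V → ℤ) {k : ℕ} (B : Fin k → Fin k → ℤ) (Y : Fin k → V) :
    IsoTo s B Y ↔ ∃ B' ∈ orb B, ∀ i j, s (Y i) (Y j) = B' i j := by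
  classical
  unfold orb IsoTo
  constructor
  · rintro ⟨σ, h⟩
    refine ⟨fun a b => B (σ.symm a) (σ.symm b), Finset.mem_image.mpr ⟨σ.symm, mem_univ _, rfl⟩, ?_⟩
    intro i j
    show s (Y i) (Y j) = B (σ.symm i) (σ.symm j)
    rw [← h]
    simp
  · rintro ⟨B', hB', h⟩
    obtain ⟨τ, -, rfl⟩ := Finset.mem_image.mp hB'
    refine ⟨τ.symm, fun a b => ?_⟩
    rw [h]
    simp

theorem dens_avg_sum {α ι : Type*} [Fintype α] (t : Finset ι) (f : ι → α → ℝ) :
    avg (fun a => ∑ i ∈ t, f i a) = ∑ i ∈ t, avg (f i) := by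
  unfold avg
  rw [Finset.sum_comm, Finset.sum_div]

theorem isoP_eq_sum {V : Type*} [Fintype V] (s : V → V → ℤ) {k : ℕ} (B : Fin k → Fin k → ℤ) :
    isoP s B = ∑ B' ∈ orb B, lab s B' := by
  classical
  unfold isoP lab Pr
  rw [← dens_avg_sum]
  congr 1
  funext Y
  by_cases h : IsoTo s B Y
  · obtain ⟨B', hB', h'⟩ := (isoTo_iff s B Y).mp h
    rw [Finset.sum_eq_single B']
    · simp only [ind, if_pos h, if_pos h']
    · intro C _ hC
      have : ¬ (∀ i j, s (Y i) (Y j) = C i j) := by
        intro hc
        apply hC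
        funext i j
        rw [← hc, h']
      simp only [ind, if_neg this]
    · intro hc; exact absurd hB' hc
  · rw [Finset.sum_eq_zero]
    · simp only [ind, if_neg h]
    · intro C hC
      have : ¬ (∀ i j, s (Y i) (Y j) = C i j) := fun hc => h ((isoTo_iff s B Y).mpr ⟨C, hC, hc⟩)
      simp only [ind, if_neg this]

/-! ### Counting copies -/

theorem isoTo_sgn_iff {k n : ℕ} (T : Tour k) (U : Tour n) (Y : Fin k → Fin n) :
    IsoTo U.sgn T.sgn Y ↔ Function.Injective Y ∧ IsCopy T U (univ.image Y) := by
  constructor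
  · rintro ⟨σ, h⟩
    have hinj : Function.Injective Y := by
      intro a b hab
      by_contra hne
      have h1 := h (σ.symm a) (σ.symm b)
      simp only [Equiv.apply_symm_apply] at h1
      rw [hab, U.sgn_self] at h1
      have h2 := T.isT.pm (σ.symm a) (σ.symm b) (fun hc => hne (σ.symm.injective hc))
      omega
    refine ⟨hinj, fun i => Y (σ i), hinj.comp σ.injective, ?_, ?_⟩
    · ext v
      simp only [mem_image, mem_univ, true_and]
      constructor
      · rintro ⟨a, rfl⟩; exact ⟨σ a, rfl⟩
      · rintro ⟨a, rfl⟩; exact ⟨σ.symm a, by simp⟩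
    · intro i j
      rw [T.beats_iff, U.beats_iff, h]
  · rintro ⟨hinj, f, hf, him, hb⟩
    -- the permutation
    have hex : ∀ a : Fin k, ∃ b : Fin k, Y b = f a := by
      intro a
      have : f a ∈ univ.image Y := by
        rw [← him]; exact mem_image_of_mem f (mem_univ a)
      obtain ⟨b, -, hb⟩ := mem_image.mp this
      exact ⟨b, hb⟩
    choose g hg using hex
    have hginj : Function.Injective g := by
      intro a b hab
      apply hf
      rw [← hg, ← hg, hab]
    refine ⟨Equiv.ofBijective g (Finite.injective_iff_bijective.mp hginj), fun a b => ?_⟩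
    show U.sgn (Y (g a)) (Y (g b)) = T.sgn a b
    rw [hg, hg]
    have h1 := hb a b
    have h2 := hb b a
    by_cases c1 : T.beats a b
    · rw [(T.beats_iff a b).mp c1, (U.beats_iff _ _).mp (h1.mp c1)]
    · by_cases c2 : T.beats b a
      · rw [T.isT.skew, U.isT.skew, (T.beats_iff _ _).mp c2, (U.beats_iff _ _).mp (h2.mp c2)]
      · have c3 : ¬ U.beats (f a) (f b) := fun h => c1 (h1.mpr h)
        have c4 : ¬ U.beats (f b) (f a) := fun h => c2 (h2.mpr h)
        simp [Tour.sgn, c1, c2, c3, c4]

theorem card_isoTo {k n : ℕ} (T : Tour k) (U : Tour n) :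
    ((univ : Finset (Fin k → Fin n)).filter (fun Y => @decide (IsoTo U.sgn T.sgn Y)
      (Classical.propDecidable _) = true)).card =
    k.factorial * ((univ : Finset (Finset (Fin n))).filter (fun A => @decide (IsCopy T U A)
      (Classical.propDecidable _) = true)).card := by
  classical
  rw [Finset.card_eq_sum_card_fiberwise (f := fun Y : Fin k → Fin n => univ.image Y)
    (t := (univ : Finset (Finset (Fin n))).filter (fun A => @decide (IsCopy T U A)
      (Classical.propDecidable _) = true))]
  · rw [Finset.sum_const_nat (m := k.factorial)]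
    · ring
    · intro A hA
      simp only [decide_eq_true_eq, mem_filter, mem_univ, true_and] at hA
      obtain ⟨f, hf, him, hb⟩ := hA
      have hset : ((univ : Finset (Fin k → Fin n)).filter (fun Y => @decide (IsoTo U.sgn T.sgn Y)
          (Classical.propDecidable _) = true)).filter (fun Y => univ.image Y = A)
          = (univ : Finset (Equiv.Perm (Fin k))).image (fun τ a => f (τ a)) := by
        ext Y
        simp only [decide_eq_true_eq, mem_filter, mem_univ, true_and, mem_image]
        constructor
        · rintro ⟨h1, h2⟩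
          have hinj := ((isoTo_sgn_iff T U Y).mp h1).1
          have hex : ∀ a : Fin k, ∃ b : Fin k, f b = Y a := by
            intro a
            have : Y a ∈ univ.image f := by
              rw [him, ← h2]; exact mem_image_of_mem Y (mem_univ a)
            obtain ⟨b, -, hb⟩ := mem_image.mp this
            exact ⟨b, hb⟩
          choose g hg using hex
          have hginj : Function.Injective g := by
            intro a b hab
            apply hinj
            rw [← hg, ← hg, hab]
          refine ⟨Equiv.ofBijective g (Finite.injective_iff_bijective.mp hginj), ?_⟩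
          funext a
          exact hg a
        · rintro ⟨τ, rfl⟩
          have him' : univ.image (fun a => f (τ a)) = A := by
            rw [← him]
            ext v
            simp only [mem_image, mem_univ, true_and]
            constructor
            · rintro ⟨a, rfl⟩; exact ⟨τ a, rfl⟩
            · rintro ⟨a, rfl⟩; exact ⟨τ.symm a, by simp⟩
          refine ⟨(isoTo_sgn_iff T U _).mpr ⟨hf.comp τ.injective, ?_⟩, him'⟩
          rw [him']
          exact ⟨f, hf, him, hb⟩
      rw [hset, Finset.card_image_of_injective, Finset.card_univ, Fintype.card_perm,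
        Fintype.card_fin]
      intro τ τ' h
      apply Equiv.ext
      intro a
      exact hf (congrFun h a)
  · intro Y hY
    simp only [decide_eq_true_eq, mem_univ, true_and, coe_filter, Set.mem_ofPred_eq] at hY ⊢
    exact ((isoTo_sgn_iff T U Y).mp hY).2

theorem avg_ind_eq {α : Type*} [Fintype α] (p : α → Prop) :
    Pr p = ((univ : Finset α).filter (fun a => @decide (p a)
      (Classical.propDecidable _) = true)).card / Fintype.card α := by
  classical
  unfold Pr avg ind
  congr 1
  rw [Finset.card_filter]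
  push_cast
  apply Finset.sum_congr rfl
  intro a _
  by_cases h : p a <;> simp [h]

theorem dens_eq {k n : ℕ} (T : Tour k) (U : Tour n) (hn : 0 < n) :
    dens T U = isoP U.sgn T.sgn * ((n : ℝ) ^ k / (n.descFactorial k : ℝ)) := by
  classical
  have hcard : (Fintype.card (Fin k → Fin n) : ℝ) = (n : ℝ) ^ k := by simp
  have hpos : (0 : ℝ) < (n : ℝ) ^ k := by positivity
  have hk : (k.factorial : ℝ) ≠ 0 := by positivity
  unfold isoP
  rw [avg_ind_eq, card_isoTo, hcard]
  have hd : dens T U = (((univ : Finset (Finset (Fin n))).filter (fun A => @decide (IsCopy T U A)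
      (Classical.propDecidable _) = true)).card : ℝ) / (n.choose k : ℝ) := by
    unfold dens
    congr 2
    congr 1
    ext A
    simp
  rw [hd, Nat.descFactorial_eq_factorial_mul_choose]
  push_cast
  by_cases hc : (n.choose k : ℝ) = 0
  · simp [hc]
  · field_simp

theorem ratio_tendsto (k : ℕ) :
    Tendsto (fun n : ℕ => (n : ℝ) ^ k / (n.descFactorial k : ℝ)) atTop (𝓝 1) := by
  have h := (isEquivalent_descFactorial k).symm
  rw [Asymptotics.isEquivalent_iff_tendsto_one] at h
  · exact h
  · filter_upwards [eventually_ge_atTop k] with n hn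
    have : 0 < n.descFactorial k := Nat.descFactorial_pos.mpr hn
    positivity

theorem dens_tendsto_iff {n : ℕ → ℕ} (hn : Tendsto n atTop atTop) (U : ∀ m, Tour (n m))
    {k : ℕ} (T : Tour k) (c : ℝ) :
    Tendsto (fun m => dens T (U m)) atTop (𝓝 c) ↔
      Tendsto (fun m => isoP (U m).sgn T.sgn) atTop (𝓝 c) := by
  have hr : Tendsto (fun m => (n m : ℝ) ^ k / ((n m).descFactorial k : ℝ)) atTop (𝓝 1) :=
    (ratio_tendsto k).comp hn
  have he : ∀ᶠ m in atTop, dens T (U m) =
      isoP (U m).sgn T.sgn * ((n m : ℝ) ^ k / ((n m).descFactorial k : ℝ)) := by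
    filter_upwards [hn.eventually (eventually_gt_atTop 0)] with m hm
    exact dens_eq T (U m) hm
  constructor
  · intro h
    have h1 : Tendsto (fun m => dens T (U m) /
        ((n m : ℝ) ^ k / ((n m).descFactorial k : ℝ))) atTop (𝓝 (c / 1)) :=
      h.div hr one_ne_zero
    rw [div_one] at h1
    refine h1.congr' ?_
    filter_upwards [he, hn.eventually (eventually_ge_atTop (k + 1))] with m hm hm2
    have h2 : 0 < (n m).descFactorial k := Nat.descFactorial_pos.mpr (by omega)
    have h3 : 0 < n m := by omega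
    have h4 : ((n m : ℝ) ^ k / ((n m).descFactorial k : ℝ)) ≠ 0 := by positivity
    rw [hm, mul_div_assoc, div_self h4, mul_one]
  · intro h
    have h1 := h.mul hr
    rw [mul_one] at h1
    refine h1.congr' ?_
    filter_upwards [he] with m hm
    exact hm.symm

theorem isoP_tendsto {n : ℕ → ℕ} (s : ∀ m, Fin (n m) → Fin (n m) → ℤ)
    (h : ∀ (k : ℕ) (B : Fin k → Fin k → ℤ), Tendsto (fun m => lab (s m) B) atTop (𝓝 (cst B)))
    {k : ℕ} (B : Fin k → Fin k → ℤ) :
    Tendsto (fun m => isoP (s m) B) atTop (𝓝 (∑ B' ∈ orb B, cst B')) := by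
  simp only [isoP_eq_sum]
  exact tendsto_finsetSum _ (fun B' _ => h k B')

theorem isoTo_congr {V : Type*} (s : V → V → ℤ) {k : ℕ} (B B' : Fin k → Fin k → ℤ)
    (σ : Equiv.Perm (Fin k)) (h : ∀ a b, B (σ a) (σ b) = B' a b) (Y : Fin k → V) :
    IsoTo s B Y ↔ IsoTo s B' Y := by
  constructor
  · rintro ⟨τ, h1⟩
    refine ⟨σ.trans τ, fun a b => ?_⟩
    simp only [Equiv.trans_apply]
    rw [h1, h]
  · rintro ⟨τ, h1⟩
    refine ⟨σ.symm.trans τ, fun a b => ?_⟩
    simp only [Equiv.trans_apply]
    rw [h1, ← h]
    simp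

theorem isoP_carousel {V : Type*} [Fintype V] (s : V → V → ℤ) (n : ℕ) :
    isoP s (carousel n).sgn = carP s (2 * n + 1) := by
  obtain ⟨σ, hσ⟩ := isAlt_carousel n
  rw [carP_eq_isoP]
  unfold isoP Pr
  congr 1
  funext Y
  show ind (IsoTo s (carousel n).sgn Y) = ind (IsoTo s (altS (2 * n + 1)) Y)
  rw [propext (isoTo_congr s _ _ σ hσ Y)]

end H51.Car
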