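import Mathlib
import Pool.Agent.H51.Car.Avg
import Pool.Agent.H51.Car.Odd
import Pool.Agent.H94.Car.P3a
import Pool.Agent.H94.Car.P0d

/-!
# Locally transitive balanced tournaments have the maximal carousel density
-/

open Finset Filter Topology

namespace H51.Car

/-! ### The combinatorial core -/

/-- A tournament without cyclic triangles is a linear order. -/
theorem trans_enum {ι : Type*} [Fintype ι] {r : ℕ} (hr : Fintype.card ι = r)
    (A : ι → ι → ℤ) (hA : IsT A)
    (h : ∀ i j l, ¬ (A i j = A j l ∧ A j l = A l i ∧ A i j ≠ 0)) :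
    ∃ e : Fin r ≃ ι, ∀ a b, a < b → A (e a) (e b) = 1 := by
  classical
  let R : ι → ι → Prop := fun i j => A i j = 1
  have hz : ∀ i, A i i = 0 := fun i => by have := hA.skew i i; omega
  have hirr : ∀ i, ¬ R i i := fun i hi => by
    have : A i i = 1 := hi
    rw [hz] at this; omega
  have htr : ∀ i j l, R i j → R j l → R i l := by
    intro i j l (hij : A i j = 1) (hjl : A j l = 1)
    show A i l = 1
    by_cases hil : i = l
    · subst hil
      have := hA.skew i j
      omega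
    · rcases hA.pm i l hil with h1 | h1
      · exact h1
      · exfalso
        have h2 : A l i = 1 := by rw [hA.skew i l, h1]; rfl
        exact h i j l ⟨by rw [hij, hjl], by rw [hjl, h2], by rw [hij]; norm_num⟩
  have htri : ∀ i j, R i j ∨ i = j ∨ R j i := by
    intro i j
    by_cases hij : i = j
    · right; left; exact hij
    · rcases hA.pm i j hij with h1 | h1
      · left; exact h1
      · right; right
        show A j i = 1
        rw [hA.skew i j, h1]; rfl
  have : IsStrictTotalOrder ι R :=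
    { trichotomous := fun a b h1 h2 => by
        have := htri a b
        tauto
      irrefl := hirr
      trans := htr }
  let : LinearOrder ι := linearOrderOfSTO R
  let e : Fin r ≃o ι := monoEquivOfFin ι hr
  refine ⟨e.toEquiv, fun a b hab => ?_⟩
  have : e a < e b := e.lt_iff_lt.mpr hab
  exact this

theorem core {ι : Type*} [Fintype ι] [Nonempty ι] {r : ℕ} (hr : Fintype.card ι = r)
    (B : ι → ι → ℤ) (hB : IsT B) (ε : ι → ℤ) (hε : ∀ i, ε i = 1 ∨ ε i = -1)
    (hno : ∀ i j l, ¬ (ε i * ε j * B i j = ε j * ε l * B j l ∧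
      ε j * ε l * B j l = ε l * ε i * B l i ∧ ε i * ε j * B i j ≠ 0))
    (w : ι → ℝ) (hw : ∀ i, 0 < w i) (hk : ∀ j, ∑ i, w i * (B i j : ℝ) = 0) :
    (∀ i j, w i = w j) ∧ (∑ i, ε i = 1 ∨ ∑ i, ε i = -1) ∧
      ∃ e : Fin r ≃ ι, ∀ a b, B (e a) (e b) = altS r a b := by
  classical
  set A : ι → ι → ℤ := fun i j => ε i * ε j * B i j with hAdef
  have hee : ∀ i, ε i * ε i = 1 := by
    intro i
    rcases hε i with h | h <;> rw [h] <;> norm_num
  have hA : IsT A := by
    constructor
    · intro i j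
      simp only [hAdef]
      rw [hB.skew i j]; ring
    · intro i j hij
      simp only [hAdef]
      rcases hε i with h1 | h1 <;> rcases hε j with h2 | h2 <;> rcases hB.pm i j hij with h3 | h3 <;>
        rw [h1, h2, h3] <;> norm_num
  obtain ⟨e, he⟩ := trans_enum hr A hA hno
  have hr0 : 0 < r := by rw [← hr]; exact Fintype.card_pos
  -- transport
  have hA0 : ∀ a, A (e a) (e a) = 0 := fun a => by have := hA.skew (e a) (e a); omega
  have hkA : ∀ b, ∑ a, w (e a) * (ε (e a) : ℝ) * (A (e a) (e b) : ℝ) = 0 := by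
    intro b
    have h1 : ∀ i, w i * (ε i : ℝ) * (A i (e b) : ℝ) = (ε (e b) : ℝ) * (w i * (B i (e b) : ℝ)) := by
      intro i
      have h2 : (ε i : ℝ) * (ε i : ℝ) = 1 := by exact_mod_cast hee i
      simp only [hAdef]
      push_cast
      linear_combination (w i * (ε (e b) : ℝ) * (B i (e b) : ℝ)) * h2
    rw [Equiv.sum_comp e (fun i => w i * (ε i : ℝ) * (A i (e b) : ℝ))]
    simp only [h1]
    rw [← Finset.mul_sum, hk, mul_zero]
  -- consecutive terms
  have hcons : ∀ (a : ℕ) (ha : a + 1 < r),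
      w (e ⟨a, by omega⟩) * (ε (e ⟨a, by omega⟩) : ℝ) +
      w (e ⟨a + 1, ha⟩) * (ε (e ⟨a + 1, ha⟩) : ℝ) = 0 := by
    intro a ha
    have h1 := hkA ⟨a, by omega⟩
    have h2 := hkA ⟨a + 1, ha⟩
    have h3 : ∑ c, w (e c) * (ε (e c) : ℝ) *
        ((A (e c) (e ⟨a + 1, ha⟩) : ℝ) - (A (e c) (e ⟨a, by omega⟩) : ℝ)) = 0 := by
      have : ∀ c, w (e c) * (ε (e c) : ℝ) *
        ((A (e c) (e ⟨a + 1, ha⟩) : ℝ) - (A (e c) (e ⟨a, by omega⟩) : ℝ)) =
        w (e c) * (ε (e c) : ℝ) * (A (e c) (e ⟨a + 1, ha⟩) : ℝ) -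
        w (e c) * (ε (e c) : ℝ) * (A (e c) (e ⟨a, by omega⟩) : ℝ) := fun c => by ring
      simp only [this]
      rw [Finset.sum_sub_distrib, h1, h2, sub_zero]
    have hlt : (⟨a, by omega⟩ : Fin r) < ⟨a + 1, ha⟩ := by
      rw [Fin.lt_def]; exact Nat.lt_succ_self a
    have hsub : ∑ c, w (e c) * (ε (e c) : ℝ) *
        ((A (e c) (e ⟨a + 1, ha⟩) : ℝ) - (A (e c) (e ⟨a, by omega⟩) : ℝ)) =
        ∑ c ∈ ({⟨a, by omega⟩, ⟨a + 1, ha⟩} : Finset (Fin r)), w (e c) * (ε (e c) : ℝ) *
        ((A (e c) (e ⟨a + 1, ha⟩) : ℝ) - (A (e c) (e ⟨a, by omega⟩) : ℝ)) := by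
      symm
      apply Finset.sum_subset (Finset.subset_univ _)
      intro c _ hc
      simp only [Finset.mem_insert, Finset.mem_singleton, not_or] at hc
      have hc1 : c.val ≠ a := fun h => hc.1 (Fin.ext h)
      have hc2 : c.val ≠ a + 1 := fun h => hc.2 (Fin.ext h)
      rcases lt_or_gt_of_ne hc1 with h | h
      · rw [he c ⟨a + 1, ha⟩ (by rw [Fin.lt_def]; show c.val < a + 1; omega),
          he c ⟨a, by omega⟩ (by rw [Fin.lt_def]; exact h)]
        ring
      · have g1 := he ⟨a + 1, ha⟩ c (by rw [Fin.lt_def]; show a + 1 < c.val; omega)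
        have g2 := he ⟨a, by omega⟩ c (by rw [Fin.lt_def]; exact h)
        rw [hA.skew (e ⟨a + 1, ha⟩) (e c), hA.skew (e ⟨a, by omega⟩) (e c), g1, g2]
        ring
    rw [hsub, Finset.sum_pair (ne_of_lt hlt)] at h3
    have g1 := he _ _ hlt
    rw [g1, hA0, hA.skew (e ⟨a, by omega⟩) (e ⟨a + 1, ha⟩), g1, hA0] at h3
    push_cast at h3
    linarith
  -- signs and weights
  have hind : ∀ (a : ℕ) (ha : a < r), w (e ⟨a, ha⟩) = w (e ⟨0, hr0⟩) ∧
      ε (e ⟨a, ha⟩) = (-1) ^ a * ε (e ⟨0, hr0⟩) := by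
    intro a
    induction a with
    | zero => intro ha; exact ⟨rfl, by rw [pow_zero, one_mul]⟩
    | succ a ih =>
      intro ha
      obtain ⟨h1, h2⟩ := ih (by omega)
      have h3 := hcons a ha
      have w1 := hw (e ⟨a, by omega⟩)
      have w2 := hw (e ⟨a + 1, ha⟩)
      have h4 : ε (e ⟨a + 1, ha⟩) = - ε (e ⟨a, by omega⟩) ∧
          w (e ⟨a + 1, ha⟩) = w (e ⟨a, by omega⟩) := by
        rcases hε (e ⟨a, by omega⟩) with g1 | g1 <;> rcases hε (e ⟨a + 1, ha⟩) with g2 | g2 <;>
          rw [g1, g2] at h3 ⊢ <;> push_cast at h3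
        · linarith
        · exact ⟨by norm_num, by linarith⟩
        · exact ⟨by norm_num, by linarith⟩
        · linarith
      refine ⟨h4.2.trans h1, ?_⟩
      rw [h4.1, h2, pow_succ]; ring
  have hwall : ∀ i, w i = w (e ⟨0, hr0⟩) := by
    intro i
    have := (hind (e.symm i).val (e.symm i).isLt).1
    rw [show (⟨(e.symm i).val, (e.symm i).isLt⟩ : Fin r) = e.symm i from rfl,
      Equiv.apply_symm_apply] at this
    exact this
  refine ⟨fun i j => by rw [hwall i, hwall j], ?_, e, ?_⟩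
  · -- the sum of signs
    have h1 := hkA ⟨0, hr0⟩
    have h2 : ∀ a : Fin r, w (e a) * (ε (e a) : ℝ) * (A (e a) (e ⟨0, hr0⟩) : ℝ) =
        (if a = ⟨0, hr0⟩ then w (e ⟨0, hr0⟩) * (ε (e ⟨0, hr0⟩) : ℝ) else 0) -
          w (e ⟨0, hr0⟩) * (ε (e a) : ℝ) := by
      intro a
      by_cases ha : a = ⟨0, hr0⟩
      · rw [if_pos ha, ha, hA0]; push_cast; ring
      · rw [if_neg ha]
        have hlt : (⟨0, hr0⟩ : Fin r) < a := by
          rw [Fin.lt_def]
          have : a.val ≠ 0 := fun h => ha (Fin.ext h)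
          show 0 < a.val
          omega
        rw [hA.skew (e ⟨0, hr0⟩) (e a), he _ _ hlt, hwall (e a)]
        push_cast; ring
    simp only [h2] at h1
    rw [Finset.sum_sub_distrib, Finset.sum_ite_eq' univ, if_pos (mem_univ _),
      ← Finset.mul_sum, ← mul_sub] at h1
    have hpos := hw (e ⟨0, hr0⟩)
    have h3 : (ε (e ⟨0, hr0⟩) : ℝ) - ∑ a, (ε (e a) : ℝ) = 0 := by
      rcases mul_eq_zero.mp h1 with h | h
      · exact absurd h hpos.ne'
      · exact h
    have h4 : ∑ i, ε i = ε (e ⟨0, hr0⟩) := by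
      have h5 : ∑ a, (ε (e a) : ℝ) = ∑ i, (ε i : ℝ) := Equiv.sum_comp e (fun i => (ε i : ℝ))
      rw [h5] at h3
      have : ((∑ i, ε i : ℤ) : ℝ) = (ε (e ⟨0, hr0⟩) : ℝ) := by push_cast; linarith
      exact_mod_cast this
    rw [h4]
    exact hε _
  · -- alternating form
    have hB' : ∀ i j, B i j = ε i * ε j * A i j := by
      intro i j
      simp only [hAdef]
      have h1 := hee i
      have h2 := hee j
      calc B i j = (ε i * ε i) * (ε j * ε j) * B i j := by rw [h1, h2]; ring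
        _ = _ := by ring
    have hs : ∀ a : Fin r, ε (e a) = (-1) ^ a.val * ε (e ⟨0, hr0⟩) := fun a =>
      (hind a.val a.isLt).2
    have hlt' : ∀ a b : Fin r, a < b → B (e a) (e b) = (-1) ^ (a.val + b.val) := by
      intro a b hab
      rw [hB', he a b hab, hs a, hs b, pow_add]
      have := hee (e ⟨0, hr0⟩)
      linear_combination ((-1) ^ a.val * (-1) ^ b.val) * this
    intro a b
    unfold altS
    by_cases h1 : a < b
    · rw [if_pos h1]; exact hlt' a b h1
    · rw [if_neg h1]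
      by_cases h2 : b < a
      · rw [if_pos h2, hB.skew (e b) (e a), hlt' b a h2, Nat.add_comm]
      · rw [if_neg h2]
        have : a = b := le_antisymm (not_lt.mp h2) (not_lt.mp h1)
        subst this
        have := hB.skew (e a) (e a)
        omega

/-! ### Exceptional tuples -/

/-- Exceptional situations: repeated vertices or a forbidden four-vertex pattern at `v`. -/
def Exc {κ V : Type*} (s : V → V → ℤ) (Y : κ → V) (v : V) : Prop :=
  ¬ Function.Injective Y ∨ (∃ i, Y i = v) ∨ ∃ i j l, Bad s v (Y i) (Y j) (Y l)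

section
variable {κ V : Type*} [Fintype κ] [DecidableEq κ]

omit [Fintype κ] [DecidableEq κ] in
theorem core_tuple {s : V → V → ℤ} (hs : IsT s) {Y : κ → V} {v : V} (hE : ¬ Exc s Y v)
    {S : Finset κ} (hS : S.Nonempty) {w : κ → ℝ}
    (hw : Ker (fun i j => (s (Y i) (Y j) : ℝ)) S w) :
    (∃ c : ℝ, 0 < c ∧ ∀ i ∈ S, w i = c) ∧
      (∑ i ∈ S, s (Y i) v = 1 ∨ ∑ i ∈ S, s (Y i) v = -1) := by
  classical
  unfold Exc at hE
  push Not at hE
  obtain ⟨hinj, hv, hbad⟩ := hE
  have hne : Nonempty {i // i ∈ S} := by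
    obtain ⟨i, hi⟩ := hS
    exact ⟨⟨i, hi⟩⟩
  have h := core (ι := {i // i ∈ S}) rfl (fun i j => s (Y i) (Y j))
    (hs.comp (fun i : {i // i ∈ S} => Y i) (fun a b hab => Subtype.ext (hinj hab)))
    (fun i => s v (Y i)) (fun i => hs.pm v (Y i) (Ne.symm (hv i)))
    (by
      intro i j l h
      exact hbad i j l ⟨h.1, h.2.1, h.2.2⟩)
    (fun i => w i) (fun i => hw.1 i i.2)
    (by
      intro j
      have := hw.2 j j.2
      rw [← this, ← Finset.sum_coe_sort S (fun i => w i * (s (Y i) (Y j) : ℝ))])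
  obtain ⟨h1, h2, -⟩ := h
  constructor
  · obtain ⟨i0⟩ := hne
    exact ⟨w i0, hw.1 i0 i0.2, fun i hi => h1 ⟨i, hi⟩ i0⟩
  · have h3 : ∑ i ∈ S, s (Y i) v = - ∑ i : {i // i ∈ S}, s v (Y i) := by
      rw [← Finset.sum_coe_sort S (fun i => s (Y i) v), ← Finset.sum_neg_distrib]
      apply Finset.sum_congr rfl
      intro i _
      exact hs.skew v (Y i)
    rw [h3]
    rcases h2 with h | h
    · right; rw [h]
    · left; rw [h]; rfl

omit [Fintype κ] [DecidableEq κ] in
theorem sg_of_not_exc {s : V → V → ℤ} (hs : IsT s) {Y : κ → V} {v : V} (hE : ¬ Exc s Y v)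
    {S : Finset κ} (hP : Pos (fun i j => (s (Y i) (Y j) : ℝ)) S) :
    sg (fun i j => (s (Y i) (Y j) : ℝ)) S (fun i => (s (Y i) v : ℝ)) =
      ∑ i ∈ S, (s (Y i) v : ℝ) := by
  obtain ⟨hS, w, hw⟩ := hP
  have key : ∀ w', Ker (fun i j => (s (Y i) (Y j) : ℝ)) S w' → ∃ c : ℝ, 0 < c ∧
      ∑ i ∈ S, w' i * (s (Y i) v : ℝ) = c * ∑ i ∈ S, (s (Y i) v : ℝ) := by
    intro w' hw'
    obtain ⟨⟨c, hc, hcw⟩, -⟩ := core_tuple hs hE hS hw'
    refine ⟨c, hc, ?_⟩
    rw [Finset.mul_sum]
    exact Finset.sum_congr rfl fun i hi => by rw [hcw i hi]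
  have hsum := (core_tuple hs hE hS hw).2
  have hcast : ∑ i ∈ S, (s (Y i) v : ℝ) = ((∑ i ∈ S, s (Y i) v : ℤ) : ℝ) := by push_cast; rfl
  unfold sg
  rcases hsum with h | h
  · rw [hcast, h]
    have : ∃ w, Ker (fun i j => (s (Y i) (Y j) : ℝ)) S w ∧
        0 < ∑ i ∈ S, w i * (s (Y i) v : ℝ) := by
      refine ⟨w, hw, ?_⟩
      obtain ⟨c, hc, he⟩ := key w hw
      rw [he, hcast, h]
      push_cast; linarith
    rw [if_pos this]; norm_num
  · rw [hcast, h]
    have h1 : ¬ ∃ w, Ker (fun i j => (s (Y i) (Y j) : ℝ)) S w ∧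
        0 < ∑ i ∈ S, w i * (s (Y i) v : ℝ) := by
      rintro ⟨w', hw', hpos⟩
      obtain ⟨c, hc, he⟩ := key w' hw'
      rw [he, hcast, h] at hpos
      push_cast at hpos; linarith
    have h2 : ∃ w, Ker (fun i j => (s (Y i) (Y j) : ℝ)) S w ∧
        ∑ i ∈ S, w i * (s (Y i) v : ℝ) < 0 := by
      refine ⟨w, hw, ?_⟩
      obtain ⟨c, hc, he⟩ := key w hw
      rw [he, hcast, h]
      push_cast; linarith
    rw [if_neg h1, if_pos h2]; norm_num

end

theorem isAlt_of_not_exc {V : Type*} {N : ℕ} {s : V → V → ℤ} (hs : IsT s) {Y : Fin N → V} {v : V}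
    (hE : ¬ Exc s Y v) (hP : Pos (fun i j => (s (Y i) (Y j) : ℝ)) univ) :
    IsAlt (fun a b => s (Y a) (Y b)) := by
  obtain ⟨⟨i0, -⟩, w, hw⟩ := hP
  unfold Exc at hE
  push Not at hE
  obtain ⟨hinj, hv, hbad⟩ := hE
  have : Nonempty (Fin N) := ⟨i0⟩
  obtain ⟨-, -, e, he⟩ := core (ι := Fin N) (Fintype.card_fin N) (fun i j => s (Y i) (Y j))
    (hs.comp Y hinj) (fun i => s v (Y i)) (fun i => hs.pm v (Y i) (Ne.symm (hv i)))
    (by
      intro i j l h
      exact hbad i j l ⟨h.1, h.2.1, h.2.2⟩)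
    w (fun i => hw.1 i (mem_univ i)) (fun j => hw.2 j (mem_univ j))
  exact ⟨e, he⟩

/-- Row sums of the alternating form vanish. -/
theorem sum_altS {N : ℕ} (hN : Odd N) (b : Fin N) : ∑ a, altS N a b = 0 := by
  obtain ⟨n, rfl⟩ := hN
  obtain ⟨σ, hσ⟩ := isAlt_carousel n
  have h1 : ∑ a, altS (2 * n + 1) a b = ∑ a, (carousel n).sgn (σ a) (σ b) :=
    Finset.sum_congr rfl fun a _ => (hσ a b).symm
  rw [h1, Equiv.sum_comp σ (fun x => (carousel n).sgn x (σ b))]
  have h2 : ∀ x, (carousel n).sgn x (σ b) = - (carousel n).sgn (σ b) x := fun x =>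
    (carousel n).isT.skew _ _
  simp only [h2]
  rw [Finset.sum_neg_distrib, sum_carousel, neg_zero]

theorem pos_of_isAlt {N : ℕ} (hN : Odd N) {B : Fin N → Fin N → ℤ} (h : IsAlt B) :
    Pos (fun i j => (B i j : ℝ)) univ := by
  obtain ⟨σ, hσ⟩ := h
  have hN0 : 0 < N := hN.pos
  refine ⟨⟨⟨0, hN0⟩, mem_univ _⟩, fun _ => 1, fun _ _ => one_pos, ?_⟩
  intro j _
  simp only [one_mul]
  have h1 : ∑ i, B i j = 0 := by
    have h2 : ∑ a, B (σ a) j = ∑ i, B i j := Equiv.sum_comp σ (fun i => B i j)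
    rw [← h2]
    have h3 : ∀ a, B (σ a) j = altS N a (σ.symm j) := by
      intro a
      rw [← hσ]; simp
    simp only [h3]
    exact sum_altS hN _
  rw [← Int.cast_sum, h1]; simp

/-! ### Probabilities -/

section prob
variable {κ : Type*} [Fintype κ] [DecidableEq κ] {n : ℕ}

/-- The error quantity. -/
noncomputable def err {n : ℕ} (s : Fin n → Fin n → ℤ) : ℝ :=
  Real.sqrt (bal s) + badP s + 1 / n

theorem err_nonneg (s : Fin n → Fin n → ℤ) : 0 ≤ err s := by
  have := Pr_nonneg (fun Y : Fin 4 → Fin n => Bad s (Y 0) (Y 1) (Y 2) (Y 3))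
  unfold err badP
  positivity

theorem Bad.ne {V : Type*} {s : V → V → ℤ} (hs : IsT s) {x i j l : V} (h : Bad s x i j l) :
    i ≠ j ∧ j ≠ l ∧ l ≠ i := by
  have hz : ∀ i, s i i = 0 := fun i => by have := hs.skew i i; omega
  obtain ⟨h1, h2, h3⟩ := h
  refine ⟨?_, ?_, ?_⟩
  · rintro rfl; apply h3; rw [hz]; simp
  · rintro rfl; apply h3; rw [h1, hz]; simp
  · rintro rfl; apply h3; rw [h1, h2, hz]; simp

theorem Pr_bad_le (hn : 0 < n) {s : Fin n → Fin n → ℤ} (hs : IsT s) (i j l : κ) :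
    avg (fun Y : κ → Fin n => avg (fun v : Fin n => ind (Bad s v (Y i) (Y j) (Y l)))) ≤
      badP s := by
  have : Nonempty (Fin n) := ⟨⟨0, hn⟩⟩
  by_cases hd : i ≠ j ∧ j ≠ l ∧ l ≠ i
  · obtain ⟨hij, hjl, hli⟩ := hd
    apply le_of_eq
    let e : Fin 4 → κ ⊕ Unit := ![Sum.inr (), Sum.inl i, Sum.inl j, Sum.inl l]
    have he : Function.Injective e := by
      intro a b hab
      fin_cases a <;> fin_cases b <;> simp_all [e]
    have h1 := avg_comp_inj (V := Fin n) e he (fun Y : Fin 4 → Fin n =>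
      ind (Bad s (Y 0) (Y 1) (Y 2) (Y 3)))
    rw [avg_sum_arrow] at h1
    exact h1
  · have h0 : ∀ (Y : κ → Fin n) (v : Fin n), ind (Bad s v (Y i) (Y j) (Y l)) = 0 := by
      intro Y v
      apply ind_neg
      intro hb
      have := hb.ne hs
      apply hd
      refine ⟨?_, ?_, ?_⟩
      · rintro rfl; exact this.1 rfl
      · rintro rfl; exact this.2.1 rfl
      · rintro rfl; exact this.2.2 rfl
    simp only [h0]
    have h1 : avg (fun _ : κ → Fin n => avg (fun _ : Fin n => (0 : ℝ))) = 0 := by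
      rw [avg_const, avg_const]
    rw [h1]
    exact Pr_nonneg _

theorem Pr_exc_le (hn : 0 < n) {s : Fin n → Fin n → ℤ} (hs : IsT s) :
    avg (fun Y : κ → Fin n => avg (fun v : Fin n => ind (Exc s Y v))) ≤
      ((Fintype.card κ : ℝ) ^ 2 + Fintype.card κ + (Fintype.card κ : ℝ) ^ 3) * err s := by
  classical
  have : Nonempty (Fin n) := ⟨⟨0, hn⟩⟩
  have h1 : ∀ (Y : κ → Fin n) (v : Fin n), ind (Exc s Y v) ≤
      ind (¬ Function.Injective Y) + (∑ i, ind (Y i = v) +
        ∑ p : κ × κ × κ, ind (Bad s v (Y p.1) (Y p.2.1) (Y p.2.2))) := by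
    intro Y v
    unfold Exc
    refine (ind_or_le _ _).trans (add_le_add (le_refl _) ((ind_or_le _ _).trans
      (add_le_add ?_ ?_)))
    · by_cases h : ∃ i, Y i = v
      · obtain ⟨i, hi⟩ := h
        rw [ind_pos_iff ⟨i, hi⟩]
        calc (1 : ℝ) = ind (Y i = v) := (ind_pos_iff hi).symm
          _ ≤ _ := Finset.single_le_sum (f := fun i => ind (Y i = v))
            (fun j _ => ind_nonneg _) (mem_univ i)
      · rw [ind_neg h]
        exact Finset.sum_nonneg fun i _ => ind_nonneg _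
    · by_cases h : ∃ i j l, Bad s v (Y i) (Y j) (Y l)
      · obtain ⟨i, j, l, hi⟩ := h
        rw [ind_pos_iff ⟨i, j, l, hi⟩]
        calc (1 : ℝ) = ind (Bad s v (Y i) (Y j) (Y l)) := (ind_pos_iff hi).symm
          _ ≤ _ := Finset.single_le_sum
            (f := fun p : κ × κ × κ => ind (Bad s v (Y p.1) (Y p.2.1) (Y p.2.2)))
            (fun j _ => ind_nonneg _) (mem_univ (i, j, l))
      · rw [ind_neg h]
        exact Finset.sum_nonneg fun i _ => ind_nonneg _
  have h2 : ∀ Y : κ → Fin n, ∀ i, avg (fun v : Fin n => ind (Y i = v)) = 1 / n := by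
    intro Y i
    unfold avg
    rw [Fintype.card_fin, Finset.sum_eq_single (Y i)]
    · rw [ind_pos_iff rfl]
    · intro b _ hb
      exact ind_neg (Ne.symm hb)
    · intro h; exact absurd (mem_univ _) h
  have h3 : avg (fun Y : κ → Fin n => avg (fun v : Fin n => ind (Exc s Y v))) ≤
      (Fintype.card κ : ℝ) ^ 2 / n + (Fintype.card κ * (1 / n) +
        (Fintype.card κ : ℝ) ^ 3 * badP s) := by
    calc _ ≤ avg (fun Y : κ → Fin n => avg (fun v : Fin n => ind (¬ Function.Injective Y) +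
          (∑ i, ind (Y i = v) +
          ∑ p : κ × κ × κ, ind (Bad s v (Y p.1) (Y p.2.1) (Y p.2.2))))) :=
          avg_mono fun Y => avg_mono fun v => h1 Y v
      _ = Pr (fun Y : κ → Fin n => ¬ Function.Injective Y) +
          (Fintype.card κ * (1 / (n : ℝ)) + ∑ p : κ × κ × κ,
          avg (fun Y : κ → Fin n => avg (fun v : Fin n =>
            ind (Bad s v (Y p.1) (Y p.2.1) (Y p.2.2))))) := by
          have e1 : ∀ Y : κ → Fin n, avg (fun v : Fin n => ind (¬ Function.Injective Y) +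
            (∑ i, ind (Y i = v) +
            ∑ p : κ × κ × κ, ind (Bad s v (Y p.1) (Y p.2.1) (Y p.2.2)))) =
            ind (¬ Function.Injective Y) + (Fintype.card κ * (1 / (n : ℝ)) +
            ∑ p : κ × κ × κ, avg (fun v : Fin n =>
              ind (Bad s v (Y p.1) (Y p.2.1) (Y p.2.2)))) := by
            intro Y
            rw [avg_add, avg_const, avg_add, avg_sum, avg_sum]
            simp only [h2]
            rw [Finset.sum_const, nsmul_eq_mul, Finset.card_univ]
          simp only [e1]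
          rw [avg_add, avg_add, avg_const, avg_sum]
          rfl
      _ ≤ (Fintype.card κ : ℝ) ^ 2 / n + (Fintype.card κ * (1 / n) +
        (Fintype.card κ : ℝ) ^ 3 * badP s) := by
          have e2 := Pr_not_injective (κ := κ) (V := Fin n)
          rw [Fintype.card_fin] at e2
          have e3 : ∑ p : κ × κ × κ, avg (fun Y : κ → Fin n => avg (fun v : Fin n =>
              ind (Bad s v (Y p.1) (Y p.2.1) (Y p.2.2)))) ≤
              (Fintype.card κ : ℝ) ^ 3 * badP s := by
            calc _ ≤ ∑ p : κ × κ × κ, badP s :=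
                Finset.sum_le_sum fun p _ => Pr_bad_le hn hs p.1 p.2.1 p.2.2
              _ = _ := by
                rw [Finset.sum_const, nsmul_eq_mul, Finset.card_univ, Fintype.card_prod,
                  Fintype.card_prod]
                push_cast; ring
          exact add_le_add e2 (add_le_add (le_refl _) e3)
  refine h3.trans ?_
  have b0 : 0 ≤ badP s := Pr_nonneg _
  have b1 : 0 ≤ Real.sqrt (bal s) := Real.sqrt_nonneg _
  have b2 : (0 : ℝ) ≤ 1 / n := by positivity
  have c1 : 1 / (n : ℝ) ≤ err s := by unfold err; linarith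
  have c2 : badP s ≤ err s := by unfold err; linarith
  have d1 : (0 : ℝ) ≤ (Fintype.card κ : ℝ) ^ 2 := by positivity
  have d2 : (0 : ℝ) ≤ (Fintype.card κ : ℝ) := by positivity
  have d3 : (0 : ℝ) ≤ (Fintype.card κ : ℝ) ^ 3 := by positivity
  have e1 := mul_le_mul_of_nonneg_left c1 d1
  have e2 := mul_le_mul_of_nonneg_left c1 d2
  have e3 := mul_le_mul_of_nonneg_left c2 d3
  rw [mul_one_div] at e1
  linarith

/-- The score difference. -/
theorem avg_abs_score_le (hn : 0 < n) (s : Fin n → Fin n → ℤ) (i : κ) :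
    avg (fun Y : κ → Fin n => |avg (fun v : Fin n => (s (Y i) v : ℝ))|) ≤ Real.sqrt (bal s) := by
  have : Nonempty (Fin n) := ⟨⟨0, hn⟩⟩
  have h1 : avg (fun Y : κ → Fin n => |avg (fun v : Fin n => (s (Y i) v : ℝ))|) =
      avg (fun x : Fin n => |avg (fun v : Fin n => (s x v : ℝ))|) := by
    have h := avg_comp_inj (V := Fin n) (fun _ : Unit => i) (fun _ _ _ => rfl)
      (fun Y : Unit → Fin n => |avg (fun v : Fin n => (s (Y ()) v : ℝ))|)
    rw [h]
    exact avg_equiv (Equiv.funUnique Unit (Fin n))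
      (fun x : Fin n => |avg (fun v : Fin n => (s x v : ℝ))|)
  rw [h1]
  apply Real.le_sqrt_of_sq_le
  refine (avg_sq_le _).trans (le_of_eq ?_)
  unfold bal
  simp only [sq_abs]

/-- The main estimate: conditional signs of positive sets average out. -/
theorem avg_Hh_le (hn : 0 < n) {s : Fin n → Fin n → ℤ} (hs : IsT s) (S : Finset κ) :
    avg (fun Y : κ → Fin n => ind (Pos (fun i j => (s (Y i) (Y j) : ℝ)) S) *
      |Hh (fun Y i j => (s (Y i) (Y j) : ℝ)) (fun Y v i => (s (Y i) v : ℝ)) S Y|) ≤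
      (Fintype.card κ + (1 + Fintype.card κ) *
        ((Fintype.card κ : ℝ) ^ 2 + Fintype.card κ + (Fintype.card κ : ℝ) ^ 3)) * err s := by
  classical
  have : Nonempty (Fin n) := ⟨⟨0, hn⟩⟩
  have hpt : ∀ Y : κ → Fin n, ind (Pos (fun i j => (s (Y i) (Y j) : ℝ)) S) *
      |Hh (fun Y i j => (s (Y i) (Y j) : ℝ)) (fun Y v i => (s (Y i) v : ℝ)) S Y| ≤
      ∑ i ∈ S, |avg (fun v : Fin n => (s (Y i) v : ℝ))| +
        (1 + Fintype.card κ) * avg (fun v : Fin n => ind (Exc s Y v)) := by
    intro Y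
    have hav : 0 ≤ avg (fun v : Fin n => ind (Exc s Y v)) := avg_nonneg fun v => ind_nonneg _
    have hR : 0 ≤ ∑ i ∈ S, |avg (fun v : Fin n => (s (Y i) v : ℝ))| +
        (1 + (Fintype.card κ : ℝ)) * avg (fun v : Fin n => ind (Exc s Y v)) := by
      have : 0 ≤ ∑ i ∈ S, |avg (fun v : Fin n => (s (Y i) v : ℝ))| :=
        Finset.sum_nonneg fun i _ => abs_nonneg _
      positivity
    by_cases hP : Pos (fun i j => (s (Y i) (Y j) : ℝ)) S
    · rw [ind_pos_iff hP, one_mul]
      unfold Hh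
      have hv : ∀ v : Fin n, |sg (fun i j => (s (Y i) (Y j) : ℝ)) S (fun i => (s (Y i) v : ℝ)) -
          ∑ i ∈ S, (s (Y i) v : ℝ)| ≤ (1 + Fintype.card κ) * ind (Exc s Y v) := by
        intro v
        by_cases hE : Exc s Y v
        · rw [ind_pos_iff hE, mul_one]
          refine (abs_sub _ _).trans (add_le_add (sg_abs_le _ _ _) ?_)
          refine (Finset.abs_sum_le_sum_abs _ _).trans ?_
          have h1 : ∀ i ∈ S, |(s (Y i) v : ℝ)| ≤ 1 := by
            intro i _
            by_cases h : Y i = v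
            · have := hs.skew v v
              have h0 : s v v = 0 := by omega
              rw [h, h0]; simp
            · rcases hs.pm (Y i) v h with h | h <;> rw [h] <;> simp
          calc ∑ i ∈ S, |(s (Y i) v : ℝ)| ≤ ∑ i ∈ S, (1 : ℝ) := Finset.sum_le_sum h1
            _ = (S.card : ℝ) := by simp
            _ ≤ Fintype.card κ := by exact_mod_cast Finset.card_le_univ S
        · rw [sg_of_not_exc hs hE hP, sub_self, abs_zero, ind_neg hE, mul_zero]
      have e1 : avg (fun v : Fin n => sg (fun i j => (s (Y i) (Y j) : ℝ)) S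
          (fun i => (s (Y i) v : ℝ))) =
          ∑ i ∈ S, avg (fun v : Fin n => (s (Y i) v : ℝ)) +
          avg (fun v : Fin n => sg (fun i j => (s (Y i) (Y j) : ℝ)) S (fun i => (s (Y i) v : ℝ)) -
          ∑ i ∈ S, (s (Y i) v : ℝ)) := by
        rw [avg_sub, avg_sum]; ring
      rw [e1]
      refine (abs_add_le _ _).trans (add_le_add (Finset.abs_sum_le_sum_abs _ _) ?_)
      refine (abs_avg_le_avg _).trans ?_
      rw [← avg_const_mul]
      exact avg_mono hv
    · rw [ind_neg hP, zero_mul]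
      exact hR
  calc _ ≤ avg (fun Y : κ → Fin n => ∑ i ∈ S, |avg (fun v : Fin n => (s (Y i) v : ℝ))| +
        (1 + Fintype.card κ) * avg (fun v : Fin n => ind (Exc s Y v))) := avg_mono hpt
    _ = ∑ i ∈ S, avg (fun Y : κ → Fin n => |avg (fun v : Fin n => (s (Y i) v : ℝ))|) +
        (1 + Fintype.card κ) * avg (fun Y : κ → Fin n =>
          avg (fun v : Fin n => ind (Exc s Y v))) := by
        rw [avg_add, avg_sum, avg_const_mul]
    _ ≤ ∑ i ∈ S, Real.sqrt (bal s) + (1 + Fintype.card κ) *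
        (((Fintype.card κ : ℝ) ^ 2 + Fintype.card κ + (Fintype.card κ : ℝ) ^ 3) * err s) := by
        refine add_le_add (Finset.sum_le_sum fun i _ => avg_abs_score_le hn s i) ?_
        exact mul_le_mul_of_nonneg_left (Pr_exc_le hn hs) (by positivity)
    _ ≤ Fintype.card κ * err s + (1 + Fintype.card κ) *
        (((Fintype.card κ : ℝ) ^ 2 + Fintype.card κ + (Fintype.card κ : ℝ) ^ 3) * err s) := by
        refine add_le_add ?_ (le_refl _)
        rw [Finset.sum_const, nsmul_eq_mul]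
        have b0 : 0 ≤ badP s := Pr_nonneg _
        have b1 : 0 ≤ Real.sqrt (bal s) := Real.sqrt_nonneg _
        have b2 : (0 : ℝ) ≤ 1 / n := by positivity
        have c1 : Real.sqrt (bal s) ≤ err s := by unfold err; linarith
        have c2 : (S.card : ℝ) ≤ Fintype.card κ := by exact_mod_cast Finset.card_le_univ S
        exact mul_le_mul c2 c1 b1 (by positivity)
    _ = _ := by ring

end prob

/-- The quantitative form. -/
theorem carP_of_lt_quant (N : ℕ) (hodd : Odd N) : ∃ C : ℝ, 0 ≤ C ∧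
    ∀ (n : ℕ) (s : Fin n → Fin n → ℤ), 0 < n → IsT s →
      |carP s N - (1 / 2) ^ (N - 1)| ≤ C * err s := by
  classical
  set c : ℝ := (Fintype.card (Fin N) : ℝ) with hc
  have hc0 : 0 ≤ c := by rw [hc]; positivity
  set C1 : ℝ := c + (1 + c) * (c ^ 2 + c + c ^ 3) with hC1
  have hC10 : 0 ≤ C1 := by rw [hC1]; positivity
  set C2 : ℝ := (3 ^ N + 2) * c ^ 2 + ∑ S ∈ (univ : Finset (Fin N)).powerset, 2 ^ S.card * C1
    with hC2
  have hC20 : 0 ≤ C2 := by
    rw [hC2]
    have : 0 ≤ ∑ S ∈ (univ : Finset (Fin N)).powerset, 2 ^ S.card * C1 :=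
      Finset.sum_nonneg fun S _ => by positivity
    positivity
  refine ⟨(c ^ 2 + c + c ^ 3) + C2, by positivity, ?_⟩
  intro n s hn hs
  have : Nonempty (Fin n) := ⟨⟨0, hn⟩⟩
  set Mat : (Fin N → Fin n) → Fin N → Fin N → ℝ := fun Y i j => (s (Y i) (Y j) : ℝ) with hMat
  set col : (Fin N → Fin n) → Fin n → Fin N → ℝ := fun Y v i => (s (Y i) v : ℝ) with hcol
  have herr := err_nonneg s
  have hnerr : 1 / (n : ℝ) ≤ err s := by
    have b0 : 0 ≤ badP s := Pr_nonneg _
    have b1 : 0 ≤ Real.sqrt (bal s) := Real.sqrt_nonneg _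
    unfold err; linarith
  -- step 1: the identity
  have hd := avg_dagger Mat col univ univ (fun Y z _ i _ => rfl)
    (fun Y z _ v i j hi hj => by
      simp only [hMat, Function.update_of_ne hi, Function.update_of_ne hj])
    (fun Y z _ v u i hi => by simp only [hcol, Function.update_of_ne hi])
  have hgen : Pr (fun Y : Fin N → Fin n => ¬ Gen (Mat Y) univ) ≤ c ^ 2 / n := by
    have h1 := Pr_not_injective (κ := Fin N) (V := Fin n)
    rw [Fintype.card_fin n] at h1
    refine le_trans (Pr_mono ?_) h1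
    intro Y hY hinj
    exact hY (gen_isT (fun i j => s (Y i) (Y j)) (hs.comp Y hinj))
  rw [Finset.card_univ, Fintype.card_fin] at hd
  -- step 2: separate the full set
  have hmem : (univ : Finset (Fin N)) ∈ (univ : Finset (Fin N)).powerset :=
    Finset.mem_powerset.mpr (Finset.Subset.refl _)
  rw [← Finset.add_sum_erase _ _ hmem] at hd
  have hfull : term Mat col univ univ univ = Pr (fun Y => Pos (Mat Y) univ) := by
    unfold term Pr
    simp
  have hrest : |∑ S ∈ (univ : Finset (Fin N)).powerset.erase univ,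
      2 ^ S.card * term Mat col univ univ S| ≤
      ∑ S ∈ (univ : Finset (Fin N)).powerset, 2 ^ S.card * C1 * err s := by
    refine (Finset.abs_sum_le_sum_abs _ _).trans ?_
    refine le_trans (Finset.sum_le_sum (g := fun S => 2 ^ S.card * C1 * err s) ?_)
      (Finset.sum_le_sum_of_subset_of_nonneg (Finset.erase_subset _ _)
        (fun S _ _ => by positivity))
    intro S hS
    rw [Finset.mem_erase] at hS
    have hne : ((univ \ S) ∩ univ).Nonempty := by
      rw [Finset.inter_univ, Finset.sdiff_nonempty]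
      intro h
      exact hS.1 (Finset.univ_subset_iff.mp h)
    have h1 := term_abs_le Mat col univ univ S hne
    have h2 : avg (fun Y => ind (Pos (Mat Y) S) * |Hh Mat col S Y|) ≤ C1 * err s :=
      avg_Hh_le hn hs S
    rw [abs_mul, abs_of_nonneg (by positivity : (0 : ℝ) ≤ 2 ^ S.card), mul_assoc]
    exact mul_le_mul_of_nonneg_left (h1.trans h2) (by positivity)
  have hsign : ((-1 : ℝ)) ^ N = -1 := hodd.neg_one_pow
  rw [hfull, hsign, Finset.card_univ, Fintype.card_fin] at hd
  set P : ℝ := Pr (fun Y : Fin N → Fin n => Pos (Mat Y) univ) with hP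
  have hP2 : |2 ^ N * P - 2| ≤ C2 * err s := by
    have e1 : (2 : ℝ) ^ N * P - 2 = (2 ^ N * P + ∑ S ∈ (univ : Finset (Fin N)).powerset.erase univ,
      2 ^ S.card * term Mat col univ univ S - (1 - -1)) -
      ∑ S ∈ (univ : Finset (Fin N)).powerset.erase univ,
      2 ^ S.card * term Mat col univ univ S := by ring
    rw [e1]
    refine (abs_sub _ _).trans ((add_le_add hd hrest).trans ?_)
    have e2 : (3 ^ N + 2) * Pr (fun Y : Fin N → Fin n => ¬ Gen (Mat Y) univ) ≤
        (3 ^ N + 2) * c ^ 2 * err s := by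
      rw [mul_assoc]
      apply mul_le_mul_of_nonneg_left _ (by positivity)
      refine hgen.trans ?_
      rw [← mul_one_div]
      exact mul_le_mul_of_nonneg_left hnerr (by positivity)
    have e3 : ∑ S ∈ (univ : Finset (Fin N)).powerset, 2 ^ S.card * C1 * err s =
        (∑ S ∈ (univ : Finset (Fin N)).powerset, 2 ^ S.card * C1) * err s := by
      rw [Finset.sum_mul]
    rw [e3, hC2]
    linarith [e2]
  -- step 3: carousels and positive sets
  have hcar : |carP s N - P| ≤ (c ^ 2 + c + c ^ 3) * err s := by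
    have h1 : carP s N ≤ P := by
      apply Pr_mono
      intro Y hY
      exact pos_of_isAlt hodd hY
    have h2 : P ≤ carP s N + avg (fun Y : Fin N → Fin n => avg (fun v => ind (Exc s Y v))) := by
      have h3 : ∀ Y : Fin N → Fin n, ind (Pos (Mat Y) univ) ≤
          ind (IsAlt (fun a b => s (Y a) (Y b))) + avg (fun v => ind (Exc s Y v)) := by
        intro Y
        by_cases hA : IsAlt (fun a b => s (Y a) (Y b))
        · rw [ind_pos_iff hA]
          have := ind_le_one (Pos (Mat Y) univ)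
          have h4 : 0 ≤ avg (fun v => ind (Exc s Y v)) := avg_nonneg fun v => ind_nonneg _
          linarith
        · by_cases hQ : Pos (Mat Y) univ
          · have h5 : ∀ v, ind (Exc s Y v) = 1 := by
              intro v
              apply ind_pos_iff
              by_contra hE
              exact hA (isAlt_of_not_exc hs hE hQ)
            simp only [h5]
            rw [ind_pos_iff hQ, ind_neg hA, avg_const]; norm_num
          · rw [ind_neg hQ, ind_neg hA]
            have h4 : 0 ≤ avg (fun v => ind (Exc s Y v)) := avg_nonneg fun v => ind_nonneg _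
            linarith
      have h6 := avg_mono h3
      rw [avg_add] at h6
      exact h6
    have h7 := Pr_exc_le (κ := Fin N) hn hs
    rw [← hc] at h7
    rw [abs_le]
    constructor <;> linarith
  -- step 4: conclusion
  have hN1 : 1 ≤ N := hodd.pos
  have hpow : (1 / 2 : ℝ) ^ (N - 1) = 2 / 2 ^ N := by
    obtain ⟨m, rfl⟩ : ∃ m, N = m + 1 := ⟨N - 1, by omega⟩
    rw [Nat.add_sub_cancel, pow_succ, one_div, inv_pow]
    field_simp
  have hPd : |P - (1 / 2) ^ (N - 1)| ≤ C2 * err s := by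
    have h2N : (1 : ℝ) ≤ 2 ^ N := one_le_pow₀ (by norm_num)
    have e1 : P - (1 / 2) ^ (N - 1) = (2 ^ N * P - 2) / 2 ^ N := by
      rw [hpow]; field_simp
    rw [e1, abs_div, abs_of_nonneg (by positivity : (0 : ℝ) ≤ 2 ^ N)]
    refine le_trans (div_le_self (abs_nonneg _) h2N) hP2
  calc |carP s N - (1 / 2) ^ (N - 1)| = |(carP s N - P) + (P - (1 / 2) ^ (N - 1))| := by ring_nf
    _ ≤ |carP s N - P| + |P - (1 / 2) ^ (N - 1)| := abs_add_le _ _
    _ ≤ (c ^ 2 + c + c ^ 3) * err s + C2 * err s := add_le_add hcar hPd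
    _ = _ := by ring

theorem err_tendsto (n : ℕ → ℕ) (hn : Tendsto n atTop atTop)
    (s : ∀ m, Fin (n m) → Fin (n m) → ℤ)
    (hb : Tendsto (fun m => bal (s m)) atTop (𝓝 0))
    (hbad : Tendsto (fun m => badP (s m)) atTop (𝓝 0)) :
    Tendsto (fun m => err (s m)) atTop (𝓝 0) := by
  have h1 : Tendsto (fun m => Real.sqrt (bal (s m))) atTop (𝓝 0) := by
    have := (Real.continuous_sqrt.tendsto 0).comp hb
    rw [Real.sqrt_zero] at this
    exact this
  have h2 : Tendsto (fun m => (1 : ℝ) / (n m : ℝ)) atTop (𝓝 0) :=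
    (tendsto_const_div_atTop_nhds_zero_nat 1).comp hn
  have h3 := (h1.add hbad).add h2
  rw [add_zero, add_zero] at h3
  exact h3

theorem carP_of_lt (n : ℕ → ℕ) (hn : Tendsto n atTop atTop)
    (s : ∀ m, Fin (n m) → Fin (n m) → ℤ) (hs : ∀ m, IsT (s m)) (N : ℕ) (hodd : Odd N)
    (hb : Tendsto (fun m => bal (s m)) atTop (𝓝 0))
    (hbad : Tendsto (fun m => badP (s m)) atTop (𝓝 0)) :
    Tendsto (fun m => carP (s m) N) atTop (𝓝 ((1 / 2) ^ (N - 1))) := by
  obtain ⟨C, hC0, hC⟩ := carP_of_lt_quant N hodd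
  have h1 : Tendsto (fun m => C * err (s m)) atTop (𝓝 0) := by
    have := (err_tendsto n hn s hb hbad).const_mul C
    rw [mul_zero] at this
    exact this
  rw [tendsto_iff_norm_sub_tendsto_zero]
  refine tendsto_of_tendsto_of_tendsto_of_le_of_le' tendsto_const_nhds h1 ?_ ?_
  · exact Filter.Eventually.of_forall fun m => norm_nonneg _
  · filter_upwards [hn.eventually (eventually_gt_atTop 0)] with m hm
    rw [Real.norm_eq_abs]
    exact hC (n m) (s m) hm (hs m)

end H51.Car
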