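import Mathlib
import Pool.Agent.H51.Car.Defs
import Pool.Agent.H51.Car.Core
import Pool.Agent.H94.Car.P3a
import Pool.Agent.H94.Car.Dens
import Pool.Agent.H94.Car.OfLT
import Pool.Agent.H51.Car.Base
import Pool.Agent.H51.Car.Step
import Pool.Agent.H51.Car.P2a
import Pool.Agent.H51.Car.P2b

/-!
# Assembly of the theorem on carousel tournaments
-/

open Finset Filter Topology

namespace H51.Car

/-- From some odd order at least five down to order five. -/
theorem down_to_five (n : ℕ → ℕ) (hn : Tendsto n atTop atTop)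
    (s : ∀ m, Fin (n m) → Fin (n m) → ℤ) (hs : ∀ m, IsT (s m)) (r : ℕ) :
    Tendsto (fun m => carP (s m) (2 * r + 5)) atTop (𝓝 ((1 / 2) ^ (2 * r + 4))) →
      Tendsto (fun m => carP (s m) 5) atTop (𝓝 (1 / 16)) := by
  induction r with
  | zero =>
    intro h
    norm_num at h ⊢
    exact h
  | succ r ih =>
    intro h
    apply ih
    have e1 : 2 * (r + 1) + 5 = (2 * r + 5) + 2 := by ring
    have e2 : 2 * (r + 1) + 4 = (2 * r + 5) + 1 := by ring
    rw [e2] at h
    have h' : Tendsto (fun m => carP (s m) ((2 * r + 5) + 2)) atTop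
        (𝓝 ((1 / 2) ^ ((2 * r + 5) + 1))) := h
    exact step n hn s hs (2 * r + 5) ⟨r + 2, by ring⟩ (by omega) h'

/-- The final theorem. -/
theorem main :
    ∃ φR : (k : ℕ) → Tour k → ℝ,
      (∀ (k : ℕ) (T : Tour k), Tendsto (fun m => dens T (carousel m)) atTop (𝓝 (φR k T))) ∧
      IsLimit φR ∧
      ∀ n : ℕ, 2 ≤ n → φR (2 * n + 1) (carousel n) = (1 / 4) ^ n ∧
        ∀ φ : (k : ℕ) → Tour k → ℝ, IsLimit φ →
          ((∀ ψ : (k : ℕ) → Tour k → ℝ, IsLimit ψ →
              ψ (2 * n + 1) (carousel n) ≤ φ (2 * n + 1) (carousel n)) ↔ φ = φR) := by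
  have hmono : StrictMono (fun m : ℕ => 2 * m + 1) := by
    intro a b h
    show 2 * a + 1 < 2 * b + 1
    omega
  have hN : Tendsto (fun m : ℕ => 2 * m + 1) atTop atTop := hmono.tendsto_atTop
  have hbal : Tendsto (fun m => bal (carousel m).sgn) atTop (𝓝 0) := by
    simp only [bal_carousel]
    exact tendsto_const_nhds
  have hbad : Tendsto (fun m => badP (carousel m).sgn) atTop (𝓝 0) := by
    simp only [badP_carousel]
    exact tendsto_const_nhds
  have hlab := lab_tendsto (fun m : ℕ => 2 * m + 1) hN (fun m => (carousel m).sgn)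
    (fun m => (carousel m).isT) hbal hbad
  have hconv : ∀ (k : ℕ) (T : Tour k), Tendsto (fun m => dens T (carousel m)) atTop
      (𝓝 (∑ B' ∈ orb T.sgn, cst B')) := by
    intro k T
    rw [dens_tendsto_iff hN (fun m => carousel m) T]
    exact isoP_tendsto (fun m => (carousel m).sgn) hlab T.sgn
  refine ⟨fun k T => ∑ B' ∈ orb T.sgn, cst B', hconv, ⟨fun m => 2 * m + 1, fun m => carousel m,
    hmono, hconv⟩, ?_⟩
  -- the value
  have hval : ∀ n : ℕ, (∑ B' ∈ orb (carousel n).sgn, cst B') = (1 / 2 : ℝ) ^ (2 * n) := by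
    intro n
    have h1 := hconv (2 * n + 1) (carousel n)
    rw [dens_tendsto_iff hN (fun m => carousel m) (carousel n)] at h1
    simp only [isoP_carousel] at h1
    have h2 := carP_of_lt (fun m : ℕ => 2 * m + 1) hN (fun m => (carousel m).sgn)
      (fun m => (carousel m).isT) (2 * n + 1) ⟨n, rfl⟩ hbal hbad
    exact tendsto_nhds_unique h1 h2
  -- upper bound
  have hub : ∀ φ : (k : ℕ) → Tour k → ℝ, IsLimit φ → ∀ n : ℕ,
      φ (2 * n + 1) (carousel n) ≤ (1 / 2 : ℝ) ^ (2 * n) := by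
    rintro φ ⟨N, U, hNm, hU⟩ n
    have h1 := hU (2 * n + 1) (carousel n)
    have hN' := hNm.tendsto_atTop
    rw [dens_tendsto_iff hN' U (carousel n)] at h1
    simp only [isoP_carousel] at h1
    obtain ⟨C, hC⟩ := carP_le (2 * n + 1) ⟨n, rfl⟩
    have h2 : Tendsto (fun m => (1 / 2 : ℝ) ^ (2 * n + 1 - 1) + C / (N m : ℝ)) atTop
        (𝓝 ((1 / 2 : ℝ) ^ (2 * n + 1 - 1) + 0)) := by
      apply Tendsto.add tendsto_const_nhds
      exact (tendsto_const_div_atTop_nhds_zero_nat C).comp hN'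
    rw [add_zero] at h2
    refine le_of_tendsto_of_tendsto h1 h2 ?_
    filter_upwards [hN'.eventually (eventually_gt_atTop 0)] with m hm
    exact hC (N m) (U m).sgn hm (U m).isT
  intro n hn
  have h4 : (1 / 2 : ℝ) ^ (2 * n) = (1 / 4) ^ n := by
    rw [pow_mul]; norm_num
  refine ⟨by rw [← h4]; exact hval n, ?_⟩
  intro φ hφ
  constructor
  · intro hmax
    have hge : (1 / 2 : ℝ) ^ (2 * n) ≤ φ (2 * n + 1) (carousel n) := by
      have := hmax (fun k T => ∑ B' ∈ orb T.sgn, cst B')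
        ⟨fun m => 2 * m + 1, fun m => carousel m, hmono, hconv⟩
      have h5 := hval n
      calc (1 / 2 : ℝ) ^ (2 * n) = ∑ B' ∈ orb (carousel n).sgn, cst B' := h5.symm
        _ ≤ _ := this
    have heq : φ (2 * n + 1) (carousel n) = (1 / 2 : ℝ) ^ (2 * n) := le_antisymm (hub φ hφ n) hge
    obtain ⟨N, U, hNm, hU⟩ := hφ
    have hN' := hNm.tendsto_atTop
    have h1 := hU (2 * n + 1) (carousel n)
    rw [dens_tendsto_iff hN' U (carousel n), heq] at h1
    simp only [isoP_carousel] at h1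
    have hT : ∀ m, IsT (U m).sgn := fun m => (U m).isT
    have hb := bal_of_car N hN' (fun m => (U m).sgn) hT (2 * n + 1) ⟨n, rfl⟩ (by omega) h1
    obtain ⟨r, rfl⟩ : ∃ r, n = r + 2 := ⟨n - 2, by omega⟩
    have h5 : Tendsto (fun m => carP (U m).sgn 5) atTop (𝓝 (1 / 16)) :=
      down_to_five N hN' (fun m => (U m).sgn) hT r h1
    have h5' : Tendsto (fun m => carP (U m).sgn 5) atTop (𝓝 ((1 / 2) ^ (5 - 1))) := by
      norm_num at h5 ⊢
      exact h5
    have hp := posNotAlt_of_car N hN' (fun m => (U m).sgn) hT 5 ⟨2, rfl⟩ h5'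
    have hbd := lt_of_five N hN' (fun m => (U m).sgn) hT h5 hb hp
    have hl := lab_tendsto N hN' (fun m => (U m).sgn) hT hb hbd
    funext k T
    have h6 := hU k T
    rw [dens_tendsto_iff hN' U T] at h6
    exact tendsto_nhds_unique h6 (isoP_tendsto (fun m => (U m).sgn) hl T.sgn)
  · rintro rfl ψ hψ
    have h5 := hval n
    show ψ (2 * n + 1) (carousel n) ≤ ∑ B' ∈ orb (carousel n).sgn, cst B'
    rw [h5]
    exact hub ψ hψ n

end H51.Car
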